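import Mathlib
import Pool.Agent.Helper69_LOTS.Types

/-!
Club filters: clubs of `ω₁`, clubs of countable subsets of a type, properness, `PFA`.
-/

open Cardinal
open Pool.Agent.Helper69_LOTS

namespace Pool.Agent.MOO

/-- `M` is closed under the countable family `F` of finitary functions. -/
def Cl {X : Type} (F : ℕ → List X → X) (M : Set X) : Prop :=
  ∀ n l, (∀ x ∈ l, x ∈ M) → F n l ∈ M

/-- `Φ` holds for club many countable subsets of `X`. -/
def CM {X : Type} (Φ : Set X → Prop) : Prop :=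
  ∃ F : ℕ → List X → X, ∀ M : Set X, M.Countable → Cl F M → Φ M

/-- Two conditions are compatible. -/
def Comp {P : Type} [Preorder P] (p q : P) : Prop := ∃ r, r ≤ p ∧ r ≤ q

/-- A dense set of conditions. -/
def Dns {P : Type} [Preorder P] (D : Set P) : Prop := ∀ p, ∃ q ∈ D, q ≤ p

/-- `q` is `(M, P)`-generic: for each dense `D` in `M`, `D ∩ M` is predense below `q`. -/
def Gen {P : Type} [Preorder P] (M : Set (P ⊕ Set P)) (q : P) : Prop :=
  ∀ D : Set P, Dns D → Sum.inr D ∈ M → ∀ r ≤ q, ∃ d ∈ D, Sum.inl d ∈ M ∧ Comp d r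

/-- `P` is proper: for club many countable `M ⊆ P ∪ 𝒫(P)`, each `p ∈ M` has an
`(M, P)`-generic extension. -/
def Proper (P : Type) [Preorder P] : Prop :=
  CM (fun M : Set (P ⊕ Set P) => ∀ p, Sum.inl p ∈ M → ∃ q ≤ p, Gen M q)

/-- The Proper Forcing Axiom. -/
def PFA : Prop :=
  ∀ (P : Type) [Preorder P] [Nonempty P], Proper P → ∀ D : Om → Set P, (∀ α, Dns (D α)) →
    ∃ G : Set P, G.Nonempty ∧ (∀ p ∈ G, ∀ q, p ≤ q → q ∈ G) ∧
      (∀ p ∈ G, ∀ q ∈ G, ∃ r ∈ G, r ≤ p ∧ r ≤ q) ∧ ∀ α, ∃ p ∈ G, p ∈ D α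

/-! ### Library for `CM` -/

section CM

variable {X : Type}

theorem countable_lists {B : Set X} (hB : B.Countable) :
    {l : List X | ∀ x ∈ l, x ∈ B}.Countable := by
  have : Countable B := hB
  refine (Set.countable_range (fun l : List B => l.map Subtype.val)).mono ?_
  intro l hl
  exact ⟨l.attachWith (fun x => x ∈ B) hl, by simp⟩

theorem lists_mem_iUnion {B : ℕ → Set X} (hB : Monotone B) (l : List X)
    (hl : ∀ x ∈ l, x ∈ ⋃ n, B n) : ∃ m, ∀ x ∈ l, x ∈ B m := by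
  induction l with
  | nil => exact ⟨0, fun x hx => absurd hx List.not_mem_nil⟩
  | cons a l ih =>
    obtain ⟨m, hm⟩ := ih (fun x hx => hl x (List.mem_cons_of_mem _ hx))
    obtain ⟨k, hk⟩ := Set.mem_iUnion.1 (hl a List.mem_cons_self)
    refine ⟨max m k, fun x hx => ?_⟩
    rcases List.mem_cons.1 hx with rfl | hx
    · exact hB (le_max_right _ _) hk
    · exact hB (le_max_left _ _) (hm x hx)

/-- Each countable set is contained in a countable closed set. -/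
theorem exists_cl (F : ℕ → List X → X) (A : Set X) (hA : A.Countable) :
    ∃ M : Set X, A ⊆ M ∧ M.Countable ∧ Cl F M := by
  classical
  let B : ℕ → Set X := fun n => Nat.rec A
    (fun _ B => B ∪ ⋃ n : ℕ, (F n) '' {l : List X | ∀ x ∈ l, x ∈ B}) n
  have hB0 : B 0 = A := rfl
  have hBs : ∀ n, B (n + 1) = B n ∪ ⋃ k : ℕ, (F k) '' {l : List X | ∀ x ∈ l, x ∈ B n} :=
    fun n => rfl
  have hBc : ∀ n, (B n).Countable := by
    intro n
    induction n with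
    | zero => exact hA
    | succ n ih =>
      rw [hBs]
      exact ih.union (Set.countable_iUnion (fun k => Set.Countable.image (countable_lists ih) _))
  have hmono : Monotone B := by
    refine monotone_nat_of_le_succ (fun n => ?_)
    rw [hBs]
    exact Set.subset_union_left
  refine ⟨⋃ n, B n, ?_, Set.countable_iUnion hBc, ?_⟩
  · rw [← hB0]
    exact Set.subset_iUnion B 0
  · intro n l hl
    obtain ⟨m, hm⟩ := lists_mem_iUnion hmono l hl
    refine Set.mem_iUnion.2 ⟨m + 1, ?_⟩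
    rw [hBs]
    exact Or.inr (Set.mem_iUnion.2 ⟨n, l, hm, rfl⟩)

/-- The union of an increasing sequence of closed sets is closed. -/
theorem Cl.iUnion {F : ℕ → List X → X} {B : ℕ → Set X} (hB : Monotone B)
    (h : ∀ n, Cl F (B n)) : Cl F (⋃ n, B n) := by
  intro n l hl
  obtain ⟨m, hm⟩ := lists_mem_iUnion hB l hl
  exact Set.mem_iUnion.2 ⟨m, h m n l hm⟩

/-- The union of a directed family of closed sets is closed. -/
theorem Cl.directed {F : ℕ → List X → X} {𝒜 : Set (Set X)} (hne : 𝒜.Nonempty)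
    (hdir : ∀ A ∈ 𝒜, ∀ B ∈ 𝒜, ∃ C ∈ 𝒜, A ⊆ C ∧ B ⊆ C) (h : ∀ A ∈ 𝒜, Cl F A) :
    Cl F (⋃₀ 𝒜) := by
  intro n l hl
  have h1 : ∃ A ∈ 𝒜, ∀ x ∈ l, x ∈ A := by
    clear n
    induction l with
    | nil =>
      obtain ⟨A, hA⟩ := hne
      exact ⟨A, hA, fun x hx => absurd hx List.not_mem_nil⟩
    | cons a l ih =>
      obtain ⟨A, hA, hA'⟩ := ih (fun x hx => hl x (List.mem_cons_of_mem _ hx))
      obtain ⟨B, hB, hB'⟩ := hl a List.mem_cons_self
      obtain ⟨C, hC, h1, h2⟩ := hdir A hA B hB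
      refine ⟨C, hC, fun x hx => ?_⟩
      rcases List.mem_cons.1 hx with rfl | hx
      · exact h2 hB'
      · exact h1 (hA' x hx)
  obtain ⟨A, hA, hA'⟩ := h1
  exact ⟨A, hA, h A hA n l hA'⟩

theorem CM.exists_ge {Φ : Set X → Prop} (h : CM Φ) (A : Set X) (hA : A.Countable) :
    ∃ M : Set X, A ⊆ M ∧ M.Countable ∧ Φ M := by
  obtain ⟨F, hF⟩ := h
  obtain ⟨M, h1, h2, h3⟩ := exists_cl F A hA
  exact ⟨M, h1, h2, hF M h2 h3⟩

theorem CM.mono {Φ Ψ : Set X → Prop} (h : CM Φ) (h' : ∀ M : Set X, M.Countable → Φ M → Ψ M) :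
    CM Ψ := by
  obtain ⟨F, hF⟩ := h
  exact ⟨F, fun M hM hcl => h' M hM (hF M hM hcl)⟩

theorem CM.all {ι : Type} [Countable ι] [Nonempty ι] {Φ : ι → Set X → Prop}
    (h : ∀ i, CM (Φ i)) : CM (fun M => ∀ i, Φ i M) := by
  classical
  choose F hF using h
  obtain ⟨e, he⟩ := exists_surjective_nat ι
  refine ⟨fun n l => F (e n.unpair.1) n.unpair.2 l, fun M hM hcl i => hF i M hM ?_⟩
  intro n l hl
  obtain ⟨k, rfl⟩ := he i
  have := hcl (Nat.pair k n) l hl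
  simpa using this

theorem CM.and {Φ Ψ : Set X → Prop} (h : CM Φ) (h' : CM Ψ) : CM (fun M => Φ M ∧ Ψ M) := by
  have := CM.all (ι := Bool) (Φ := fun b M => if b then Φ M else Ψ M) (by
    intro b
    cases b
    · simpa using h'
    · simpa using h)
  refine this.mono (fun M _ h => ⟨by simpa using h true, by simpa using h false⟩)

/-- Diagonal intersections, for lists. -/
theorem CM.diagL {Φ : List X → Set X → Prop} (h : ∀ l, CM (Φ l)) :
    CM (fun M => ∀ l, (∀ x ∈ l, x ∈ M) → Φ l M) := by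
  classical
  choose F hF using h
  refine ⟨fun n l => F (l.take n.unpair.1) n.unpair.2 (l.drop n.unpair.1),
    fun M hM hcl l hl => hF l M hM ?_⟩
  intro n l' hl'
  have := hcl (Nat.pair l.length n) (l ++ l') (by
    intro x hx
    rcases List.mem_append.1 hx with hx | hx
    · exact hl x hx
    · exact hl' x hx)
  simpa using this

/-- Diagonal intersections. -/
theorem CM.diag [Nonempty X] {Φ : X → Set X → Prop} (h : ∀ x, CM (Φ x)) :
    CM (fun M => ∀ x ∈ M, Φ x M) := by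
  classical
  have h1 : ∀ l : List X, CM (fun M => ∀ x, l = [x] → Φ x M) := by
    intro l
    by_cases hl : ∃ x, l = [x]
    · obtain ⟨x, rfl⟩ := hl
      refine (h x).mono (fun M _ hM y hy => ?_)
      simp only [List.cons.injEq, and_true] at hy
      exact hy ▸ hM
    · exact ⟨fun _ _ => Classical.arbitrary X, fun M _ _ x hx => absurd ⟨x, hx⟩ hl⟩
  exact (CM.diagL h1).mono (fun M _ hM x hx => hM [x] (by simpa using hx) x rfl)

/-- Skolem functions, for lists. -/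
theorem CM.skolemL [Nonempty X] (R : List X → X → Prop) :
    CM (fun M => ∀ l, (∀ x ∈ l, x ∈ M) → (∃ y, R l y) → ∃ y ∈ M, R l y) := by
  classical
  refine ⟨fun _ l => if h : ∃ y, R l y then h.choose else Classical.arbitrary X,
    fun M _ hcl l hl hy => ?_⟩
  have := hcl 0 l hl
  simp only [hy, dif_pos] at this
  exact ⟨_, this, hy.choose_spec⟩

/-- Skolem functions for a relation between lists of elements of `A` and elements of `C`, where
`A` and `C` are embedded into the ambient type `X`. -/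
theorem CM.skolemTL [Nonempty X] {A C : Type} {i : A → X} {k : C → X}
    (hi : Function.Injective i) (R : List A → C → Prop) :
    CM (fun M => ∀ l : List A, (∀ a ∈ l, i a ∈ M) → (∃ c, R l c) → ∃ c, k c ∈ M ∧ R l c) := by
  refine (CM.skolemL (X := X) (fun l y => ∃ l', l = l'.map i ∧ ∃ c, y = k c ∧ R l' c)).mono
    (fun M _ hM l hl hc => ?_)
  obtain ⟨c, hc⟩ := hc
  obtain ⟨y, hy, l', hl', c', rfl, hR⟩ := hM (l.map i) (by
    intro x hx
    obtain ⟨a, ha, rfl⟩ := List.mem_map.1 hx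
    exact hl a ha) ⟨k c, l, rfl, c, rfl, hc⟩
  have : l = l' := (List.map_injective_iff.2 hi) hl'
  exact ⟨c', hy, this ▸ hR⟩

theorem CM.skolem0 [Nonempty X] {C : Type} {k : C → X} (R : C → Prop) :
    CM (fun M => (∃ c, R c) → ∃ c, k c ∈ M ∧ R c) := by
  refine (CM.skolemL (X := X) (fun _ y => ∃ c, y = k c ∧ R c)).mono
    (fun M _ hM hc => ?_)
  obtain ⟨c, hc⟩ := hc
  obtain ⟨y, hy, c', rfl, hR⟩ := hM [] (by simp) ⟨k c, c, rfl, hc⟩
  exact ⟨c', hy, hR⟩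

theorem CM.skolem1 [Nonempty X] {A C : Type} {i : A → X} {k : C → X}
    (hi : Function.Injective i) (R : A → C → Prop) :
    CM (fun M => ∀ a, i a ∈ M → (∃ c, R a c) → ∃ c, k c ∈ M ∧ R a c) := by
  refine (CM.skolemL (X := X) (fun l y => ∃ a, l = [i a] ∧ ∃ c, y = k c ∧ R a c)).mono
    (fun M _ hM a ha hc => ?_)
  obtain ⟨c, hc⟩ := hc
  obtain ⟨y, hy, a', ha', c', rfl, hR⟩ := hM [i a] (by simpa using ha) ⟨k c, a, rfl, c, rfl, hc⟩
  simp only [List.cons.injEq, and_true] at ha'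
  exact ⟨c', hy, (hi ha') ▸ hR⟩

theorem CM.skolem2 [Nonempty X] {A B C : Type} {i : A → X} {j : B → X} {k : C → X}
    (hi : Function.Injective i) (hj : Function.Injective j) (R : A → B → C → Prop) :
    CM (fun M => ∀ a b, i a ∈ M → j b ∈ M → (∃ c, R a b c) → ∃ c, k c ∈ M ∧ R a b c) := by
  refine (CM.skolemL (X := X) (fun l y => ∃ a b, l = [i a, j b] ∧ ∃ c, y = k c ∧ R a b c)).mono
    (fun M _ hM a b ha hb hc => ?_)
  obtain ⟨c, hc⟩ := hc
  obtain ⟨y, hy, a', b', hab, c', rfl, hR⟩ := hM [i a, j b] (by simp [ha, hb])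
    ⟨k c, a, b, rfl, c, rfl, hc⟩
  simp only [List.cons.injEq, and_true] at hab
  obtain rfl := hi hab.1
  obtain rfl := hj hab.2
  exact ⟨c', hy, hR⟩

theorem CM.skolem3 [Nonempty X] {A B D C : Type} {i : A → X} {j : B → X} {m : D → X} {k : C → X}
    (hi : Function.Injective i) (hj : Function.Injective j) (hm : Function.Injective m)
    (R : A → B → D → C → Prop) :
    CM (fun M => ∀ a b d, i a ∈ M → j b ∈ M → m d ∈ M → (∃ c, R a b d c) →
      ∃ c, k c ∈ M ∧ R a b d c) := by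
  refine (CM.skolemL (X := X) (fun l y => ∃ a b d, l = [i a, j b, m d] ∧
    ∃ c, y = k c ∧ R a b d c)).mono (fun M _ hM a b d ha hb hd hc => ?_)
  obtain ⟨c, hc⟩ := hc
  obtain ⟨y, hy, a', b', d', hab, c', rfl, hR⟩ := hM [i a, j b, m d] (by simp [ha, hb, hd])
    ⟨k c, a, b, d, rfl, c, rfl, hc⟩
  simp only [List.cons.injEq, and_true] at hab
  obtain rfl := hi hab.1
  obtain rfl := hj hab.2.1
  obtain rfl := hm hab.2.2
  exact ⟨c', hy, hR⟩

theorem CM.skolem4 [Nonempty X] {A B D E C : Type} {i : A → X} {j : B → X} {m : D → X}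
    {n : E → X} {k : C → X}
    (hi : Function.Injective i) (hj : Function.Injective j) (hm : Function.Injective m)
    (hn : Function.Injective n) (R : A → B → D → E → C → Prop) :
    CM (fun M => ∀ a b d e, i a ∈ M → j b ∈ M → m d ∈ M → n e ∈ M → (∃ c, R a b d e c) →
      ∃ c, k c ∈ M ∧ R a b d e c) := by
  refine (CM.skolemL (X := X) (fun l y => ∃ a b d e, l = [i a, j b, m d, n e] ∧
    ∃ c, y = k c ∧ R a b d e c)).mono (fun M _ hM a b d e ha hb hd he hc => ?_)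
  obtain ⟨c, hc⟩ := hc
  obtain ⟨y, hy, a', b', d', e', hab, c', rfl, hR⟩ := hM [i a, j b, m d, n e]
    (by simp [ha, hb, hd, he]) ⟨k c, a, b, d, e, rfl, c, rfl, hc⟩
  simp only [List.cons.injEq, and_true] at hab
  obtain rfl := hi hab.1
  obtain rfl := hj hab.2.1
  obtain rfl := hm hab.2.2.1
  obtain rfl := hn hab.2.2.2
  exact ⟨c', hy, hR⟩

/-- Countable sets attached to the elements are swallowed. -/
theorem CM.swallow [Nonempty X] {A : Type} {i : A → X} (hi : Function.Injective i)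
    (f : A → Set X) (hf : ∀ a, (f a).Countable) :
    CM (fun M => ∀ a, i a ∈ M → f a ⊆ M) := by
  classical
  have h1 : ∀ a, ∃ g : ℕ → X, f a ⊆ Set.range g := by
    intro a
    by_cases hne : (f a).Nonempty
    · obtain ⟨g, hg⟩ := (hf a).exists_eq_range hne
      exact ⟨g, hg.le⟩
    · rw [Set.not_nonempty_iff_eq_empty] at hne
      rw [hne]
      exact ⟨fun _ => Classical.arbitrary X, Set.empty_subset _⟩
  choose g hg using h1
  have h2 : CM (fun M : Set X => ∀ n : ℕ, ∀ a, i a ∈ M → (∃ y, y = g a n) →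
      ∃ y, id y ∈ M ∧ y = g a n) :=
    CM.all (fun n => CM.skolem1 (k := id) hi (fun a y => y = g a n))
  refine h2.mono (fun M _ hM a ha x hx => ?_)
  obtain ⟨n, rfl⟩ := hg a hx
  obtain ⟨y, hy, rfl⟩ := hM n a ha ⟨_, rfl⟩
  exact hy

/-- The trace of a countable closed set on `ω₁` is an initial segment. -/
theorem CM.iio [Nonempty X] {o : Om → X} (ho : Function.Injective o) :
    CM (fun M => ∃ δ : Om, ∀ ξ, o ξ ∈ M ↔ ξ < δ) := by
  classical
  refine (CM.swallow (X := X) ho (fun ξ => o '' Set.Iio ξ)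
    (fun ξ => (Om_Iio_countable ξ).image o)).mono (fun M hM h => ?_)
  have hne : ∃ ξ, o ξ ∉ M := by
    by_contra hcon
    push Not at hcon
    have h2 : (Set.range o).Countable := hM.mono (by rintro _ ⟨ξ, rfl⟩; exact hcon ξ)
    have h3 : (Set.univ : Set Om).Countable := by
      rw [← Set.image_univ] at h2
      exact Set.countable_of_injective_of_countable_image ho.injOn h2
    exact not_countable (Set.countable_univ_iff.1 h3)
  have hwf := wellFounded_lt (α := Om)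
  refine ⟨hwf.min {ξ | o ξ ∉ M} hne, fun ξ => ⟨fun hξ => ?_, fun hξ => ?_⟩⟩
  · by_contra hcon
    have h4 := hwf.min_mem {ξ | o ξ ∉ M} hne
    rcases (not_lt.1 hcon).lt_or_eq with h5 | h5
    · exact h4 (h ξ hξ ⟨_, h5, rfl⟩)
    · rw [h5] at h4
      exact h4 hξ
  · by_contra hcon
    exact hwf.not_lt_min {ξ | o ξ ∉ M} hcon hξ

/-- Lifting a club along an injection. -/
theorem CM.lift {Y : Type} [Nonempty X] [Nonempty Y] {i : Y → X} (hi : Function.Injective i)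
    {Φ : Set Y → Prop} (h : CM Φ) : CM (fun M : Set X => Φ (i ⁻¹' M)) := by
  classical
  obtain ⟨F, hF⟩ := h
  have h1 : CM (fun M : Set X => ∀ n : ℕ, ∀ l : List Y, (∀ a ∈ l, i a ∈ M) →
      (∃ c, c = F n l) → ∃ c, i c ∈ M ∧ c = F n l) :=
    CM.all (fun n => CM.skolemTL hi (fun l c => c = F n l))
  refine h1.mono (fun M hM hM' => hF _ (hM.preimage hi) (fun n l hl => ?_))
  obtain ⟨c, hc, rfl⟩ := hM' n l hl ⟨_, rfl⟩
  exact hc

/-- Projecting a club along an injection. -/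
theorem CM.proj {Y : Type} [Nonempty Y] {i : Y → X} (hi : Function.Injective i)
    {Φ : Set X → Prop} (h : CM Φ) :
    CM (fun N : Set Y => ∃ M : Set X, M.Countable ∧ Φ M ∧ i ⁻¹' M = N) := by
  classical
  obtain ⟨F, hF⟩ := h
  have h1 : ∀ l : List Y, ∃ M : Set X, (i '' {x | x ∈ l}) ⊆ M ∧ M.Countable ∧ Cl F M ∧
      ∀ M' : Set X, (i '' {x | x ∈ l}) ⊆ M' → Cl F M' → M ⊆ M' := by
    intro l
    refine ⟨⋂₀ {M' | (i '' {x | x ∈ l}) ⊆ M' ∧ Cl F M'}, ?_, ?_, ?_, ?_⟩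
    · exact Set.subset_sInter (fun M' hM' => hM'.1)
    · obtain ⟨M, h1, h2, h3⟩ := exists_cl F (i '' {x | x ∈ l})
        ((l.finite_toSet.countable).image i)
      exact h2.mono (Set.sInter_subset_of_mem ⟨h1, h3⟩)
    · intro n l' hl'
      refine Set.mem_sInter.2 (fun M' hM' => hM'.2 n l' (fun x hx => ?_))
      exact Set.mem_sInter.1 (hl' x hx) M' hM'
    · intro M' h1 h2
      exact Set.sInter_subset_of_mem ⟨h1, h2⟩
  choose H h1 h2 h3 h4 using h1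
  have h5 : ∀ l : List Y, ∃ g : ℕ → Y, i ⁻¹' H l ⊆ Set.range g := by
    intro l
    have hc : (i ⁻¹' H l).Countable := (h2 l).preimage hi
    by_cases hne : (i ⁻¹' H l).Nonempty
    · obtain ⟨g, hg⟩ := hc.exists_eq_range hne
      exact ⟨g, hg.le⟩
    · rw [Set.not_nonempty_iff_eq_empty] at hne
      rw [hne]
      exact ⟨fun _ => Classical.arbitrary Y, Set.empty_subset _⟩
  choose g hg using h5
  refine ⟨fun n l => g l n, fun N hN hcl => ?_⟩
  let 𝒜 : Set (Set X) := {B | ∃ l : List Y, (∀ x ∈ l, x ∈ N) ∧ B = H l}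
  have hcount : 𝒜.Countable := by
    refine ((countable_lists hN).image H).mono ?_
    rintro B ⟨l, hl, rfl⟩
    exact ⟨l, hl, rfl⟩
  have hM : Cl F (⋃₀ 𝒜) := by
    refine Cl.directed ⟨H [], [], by simp, rfl⟩ ?_ ?_
    · rintro _ ⟨l, hl, rfl⟩ _ ⟨l', hl', rfl⟩
      refine ⟨H (l ++ l'), ⟨l ++ l', fun x hx => ?_, rfl⟩, ?_, ?_⟩
      · rcases List.mem_append.1 hx with hx | hx
        · exact hl x hx
        · exact hl' x hx
      · refine h4 l _ ((Set.image_mono (fun x hx => ?_)).trans (h1 (l ++ l'))) (h3 _)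
        exact List.mem_append_left _ hx
      · refine h4 l' _ ((Set.image_mono (fun x hx => ?_)).trans (h1 (l ++ l'))) (h3 _)
        exact List.mem_append_right _ hx
    · rintro _ ⟨l, hl, rfl⟩
      exact h3 l
  have hMc : (⋃₀ 𝒜).Countable := by
    refine hcount.sUnion ?_
    rintro _ ⟨l, hl, rfl⟩
    exact h2 l
  refine ⟨⋃₀ 𝒜, hMc, hF _ hMc hM, ?_⟩
  ext x
  constructor
  · rintro ⟨_, ⟨l, hl, rfl⟩, hx⟩
    obtain ⟨n, hn⟩ := hg l hx
    rw [← hn]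
    exact hcl n l hl
  · intro hx
    exact ⟨H [x], ⟨[x], by simpa using hx, rfl⟩, h1 [x] ⟨x, by simp, rfl⟩⟩

/-- Properness may be checked in any ambient type. -/
theorem proper_of_ambient {P : Type} [Preorder P] [Nonempty P] {i : P → X} {j : Set P → X}
    (hij : Function.Injective (Sum.elim i j))
    (h : CM (fun M : Set X => ∀ p, i p ∈ M → ∃ q ≤ p, ∀ D : Set P, Dns D → j D ∈ M →
      ∀ r ≤ q, ∃ d ∈ D, i d ∈ M ∧ Comp d r)) : Proper P := by
  have hne : Nonempty (P ⊕ Set P) := ⟨Sum.inr ∅⟩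
  refine (CM.proj hij h).mono (fun N _ hN p hp => ?_)
  obtain ⟨M, -, hM, rfl⟩ := hN
  obtain ⟨q, hq, hq'⟩ := hM p hp
  exact ⟨q, hq, fun D hD hDM r hr => hq' D hD hDM r hr⟩

/-- Stationary families of (countable) sets. -/
def St (𝒳 : Set (Set X)) : Prop :=
  ∀ F : ℕ → List X → X, ∃ N ∈ 𝒳, N.Countable ∧ Cl F N

theorem St.inter_cm {𝒳 : Set (Set X)} (h : St 𝒳) {Φ : Set X → Prop} (hΦ : CM Φ) :
    St {N | N ∈ 𝒳 ∧ Φ N} := by
  classical
  obtain ⟨F, hF⟩ := hΦ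
  intro F'
  obtain ⟨N, hN, hc, hcl⟩ := h (fun n l => if n % 2 = 0 then F (n / 2) l else F' (n / 2) l)
  have h1 : Cl F N := by
    intro n l hl
    have := hcl (2 * n) l hl
    simpa using this
  have h2 : Cl F' N := by
    intro n l hl
    have := hcl (2 * n + 1) l hl
    have h3 : (2 * n + 1) % 2 ≠ 0 := by omega
    have h4 : (2 * n + 1) / 2 = n := by omega
    simpa [h3, h4] using this
  exact ⟨N, ⟨hN, hF N hc h1⟩, hc, h2⟩

theorem not_CM_iff [Nonempty X] {Φ : Set X → Prop} : ¬ CM Φ ↔ St {N | ¬ Φ N} := by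
  constructor
  · intro h F
    by_contra hcon
    push Not at hcon
    refine h ⟨F, fun M hM hcl => ?_⟩
    by_contra h2
    exact hcon M h2 hM hcl
  · rintro h ⟨F, hF⟩
    obtain ⟨N, hN, hc, hcl⟩ := h F
    exact hN (hF N hc hcl)

/-- Pressing down for stationary sets of countable sets: a countable union of non-stationary
families, or a diagonal one, is not stationary. -/
theorem St.press [Nonempty X] {𝒳 : Set (Set X)} (h : St 𝒳) {f : Set X → List X}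
    (hf : ∀ N ∈ 𝒳, ∀ x ∈ f N, x ∈ N) : ∃ l, St {N | N ∈ 𝒳 ∧ f N = l} := by
  by_contra hcon
  push Not at hcon
  have h1 : ∀ l, CM (fun N : Set X => ¬ (N ∈ 𝒳 ∧ f N = l)) := by
    intro l
    by_contra h2
    rw [not_CM_iff] at h2
    apply hcon l
    intro F
    obtain ⟨N, hN, hc, hcl⟩ := h2 F
    exact ⟨N, not_not.1 hN, hc, hcl⟩
  obtain ⟨N, ⟨hN, hN'⟩, hc, -⟩ := (h.inter_cm (CM.diagL h1)) (fun _ _ => Classical.arbitrary X)
  exact hN' (f N) (hf N hN) ⟨hN, rfl⟩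

theorem St.mono {𝒳 𝒴 : Set (Set X)} (h : St 𝒳) (h' : 𝒳 ⊆ 𝒴) : St 𝒴 := by
  intro F
  obtain ⟨N, hN, hc⟩ := h F
  exact ⟨N, h' hN, hc⟩

theorem St.nonempty [Nonempty X] {𝒳 : Set (Set X)} (h : St 𝒳) : ∃ N ∈ 𝒳, N.Countable := by
  obtain ⟨N, hN, hc, -⟩ := h (fun _ _ => Classical.arbitrary X)
  exact ⟨N, hN, hc⟩

/-- Pressing down, typed version. -/
theorem St.press1 [Nonempty X] {A : Type} {i : A → X} (hi : Function.Injective i)
    {𝒳 : Set (Set X)} (h : St 𝒳) {R : Set X → A → Prop}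
    (hf : ∀ N ∈ 𝒳, ∃ a, i a ∈ N ∧ R N a) : ∃ a, St {N | N ∈ 𝒳 ∧ R N a} := by
  classical
  have h1 : ∀ N, ∃ l : List X, N ∈ 𝒳 → ∃ a, l = [i a] ∧ i a ∈ N ∧ R N a := by
    intro N
    by_cases hN : N ∈ 𝒳
    · obtain ⟨a, ha, ha'⟩ := hf N hN
      exact ⟨[i a], fun _ => ⟨a, rfl, ha, ha'⟩⟩
    · exact ⟨[], fun h => absurd h hN⟩
  choose f hf' using h1
  obtain ⟨l, hl⟩ := h.press (f := f) (fun N hN x hx => by
    obtain ⟨a, h2, h3, -⟩ := hf' N hN
    rw [h2] at hx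
    simp only [List.mem_singleton] at hx
    exact hx ▸ h3)
  obtain ⟨N, ⟨hN, hNl⟩, -⟩ := hl.nonempty
  obtain ⟨a, h2, h3, h4⟩ := hf' N hN
  refine ⟨a, hl.mono ?_⟩
  rintro N' ⟨hN', hNl'⟩
  obtain ⟨a', h2', h3', h4'⟩ := hf' N' hN'
  refine ⟨hN', ?_⟩
  have h5 : [i a] = [i a'] := by rw [← h2, ← h2', hNl, hNl']
  simp only [List.cons.injEq, and_true] at h5
  rw [hi h5]
  exact h4'

/-- A stationary family cut into countably many pieces has a stationary piece. -/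
theorem St.pigeon [Nonempty X] {ι : Type} [Countable ι] {𝒳 : Set (Set X)} (h : St 𝒳)
    {R : Set X → ι → Prop} (hR : ∀ N ∈ 𝒳, ∃ a, R N a) : ∃ a, St {N | N ∈ 𝒳 ∧ R N a} := by
  classical
  by_contra hcon
  push Not at hcon
  have hne : Nonempty ι := by
    obtain ⟨N, hN, -⟩ := h.nonempty
    obtain ⟨a, -⟩ := hR N hN
    exact ⟨a⟩
  have h1 : ∀ a, CM (fun N : Set X => ¬ (N ∈ 𝒳 ∧ R N a)) := by
    intro a
    by_contra h2
    rw [not_CM_iff] at h2
    apply hcon a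
    intro F
    obtain ⟨N, hN, hc, hcl⟩ := h2 F
    exact ⟨N, not_not.1 hN, hc, hcl⟩
  obtain ⟨N, ⟨hN, hN'⟩, -⟩ := (h.inter_cm (CM.all h1)).nonempty
  obtain ⟨a, ha⟩ := hR N hN
  exact hN' a ⟨hN, ha⟩

end CM

/-! ### Clubs of `ω₁` -/

/-- `C` is closed and unbounded in `ω₁`. -/
def Clb (C : Set Om) : Prop :=
  (∀ α, ∃ β ∈ C, α < β) ∧
    ∀ δ, (∃ ξ, ξ < δ) → (∀ ξ, ξ < δ → ∃ η ∈ C, ξ < η ∧ η < δ) → δ ∈ C

/-- `δ` is a limit ordinal (and not zero). -/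
def IsLim (δ : Om) : Prop := (∃ ξ, ξ < δ) ∧ ∀ ξ, ξ < δ → ∃ η, ξ < η ∧ η < δ

/-- `S` is stationary in `ω₁`. -/
def Stat (S : Set Om) : Prop := ∀ C, Clb C → ∃ δ ∈ S, δ ∈ C

theorem Om_bdd {A : Set Om} (hA : A.Countable) : ∃ β : Om, ∀ α ∈ A, α < β := by
  by_contra hcon
  push Not at hcon
  have h2 : (Set.univ : Set Om).Countable := by
    refine (hA.biUnion (fun d _ => Om_Iic_countable d)).mono (fun x _ => ?_)
    obtain ⟨d, hd, hd'⟩ := hcon x
    exact Set.mem_biUnion hd hd'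
  exact not_countable (Set.countable_univ_iff.1 h2)

theorem Om_exists_gt (α : Om) : ∃ β : Om, α < β := by
  obtain ⟨β, hβ⟩ := Om_bdd (Set.countable_singleton α)
  exact ⟨β, hβ α rfl⟩

theorem Om_least {p : Om → Prop} (h : ∃ ξ, p ξ) : ∃ ξ, p ξ ∧ ∀ η, η < ξ → ¬ p η := by
  have hwf := wellFounded_lt (α := Om)
  exact ⟨hwf.min {ξ | p ξ} h, hwf.min_mem _ h, fun η hη hcon =>
    hwf.not_lt_min {ξ | p ξ} hcon hη⟩

/-- The supremum of a countable set. -/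
theorem Om_sup {A : Set Om} (hA : A.Countable) : ∃ β : Om, (∀ α ∈ A, α ≤ β) ∧
    ∀ γ, γ < β → ∃ α ∈ A, γ < α := by
  obtain ⟨β, hβ⟩ := Om_bdd hA
  obtain ⟨β', h1, h2⟩ := Om_least (p := fun β => ∀ α ∈ A, α ≤ β) ⟨β, fun α hα => (hβ α hα).le⟩
  refine ⟨β', h1, fun γ hγ => ?_⟩
  by_contra hcon
  push Not at hcon
  exact h2 γ hγ hcon

/-- Club many closure points: from `CM` on `ω₁` to clubs of `ω₁`. -/
theorem CM.clb {Φ : Set Om → Prop} (h : CM Φ) : ∃ C, Clb C ∧ ∀ δ ∈ C, Φ (Set.Iio δ) := by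
  obtain ⟨F, hF⟩ := h
  refine ⟨{δ | Cl F (Set.Iio δ)}, ⟨fun α => ?_, fun δ h1 h2 => ?_⟩, fun δ hδ =>
    hF _ (Om_Iio_countable δ) hδ⟩
  · obtain ⟨G, hG⟩ := (CM.iio (o := (id : Om → Om)) Function.injective_id)
    have hcm : CM (fun M : Set Om => (∃ δ : Om, ∀ ξ, id ξ ∈ M ↔ ξ < δ) ∧ Cl F M) :=
      CM.and ⟨G, hG⟩ ⟨F, fun M _ hM => hM⟩
    obtain ⟨M, h1, -, ⟨δ, hδ⟩, h3⟩ := hcm.exists_ge {α} (Set.countable_singleton α)
    have hM : M = Set.Iio δ := Set.ext hδ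
    refine ⟨δ, ?_, (hδ α).1 (h1 rfl)⟩
    change Cl F (Set.Iio δ)
    rw [← hM]
    exact h3
  · have h3 : Set.Iio δ = ⋃₀ {A | ∃ η, Cl F (Set.Iio η) ∧ η < δ ∧ A = Set.Iio η} := by
      ext ξ
      constructor
      · intro hξ
        obtain ⟨η, hη, h4, h5⟩ := h2 ξ hξ
        exact ⟨Set.Iio η, ⟨η, hη, h5, rfl⟩, h4⟩
      · rintro ⟨_, ⟨η, hη, h5, rfl⟩, h6⟩
        exact lt_trans h6 h5
    change Cl F (Set.Iio δ)
    rw [h3]
    refine Cl.directed ?_ ?_ ?_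
    · obtain ⟨ξ, hξ⟩ := h1
      obtain ⟨η, hη, h4, h5⟩ := h2 ξ hξ
      exact ⟨Set.Iio η, η, hη, h5, rfl⟩
    · rintro _ ⟨η, hη, h5, rfl⟩ _ ⟨η', hη', h5', rfl⟩
      rcases le_total η η' with h | h
      · exact ⟨Set.Iio η', ⟨η', hη', h5', rfl⟩, Set.Iio_subset_Iio h, le_rfl⟩
      · exact ⟨Set.Iio η, ⟨η, hη, h5, rfl⟩, le_rfl, Set.Iio_subset_Iio h⟩
    · rintro _ ⟨η, hη, h5, rfl⟩
      exact hη

instance : Nonempty Om := by
  by_contra hcon
  rw [not_nonempty_iff] at hcon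
  exact not_countable (α := Om) inferInstance

theorem Clb.cm {C : Set Om} (hC : Clb C) : CM (fun M : Set Om => ∃ δ ∈ C, M = Set.Iio δ) := by
  classical
  have h1 := CM.iio (o := (id : Om → Om)) Function.injective_id
  have h2 := CM.skolem1 (X := Om) (i := id) (k := id) Function.injective_id
    (fun ξ η => η ∈ C ∧ ξ < η)
  have h3 := CM.skolem0 (X := Om) (k := id) (fun _ => True)
  refine ((h1.and h2).and h3).mono ?_
  rintro M - ⟨⟨⟨δ, hδ⟩, h4⟩, h5⟩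
  refine ⟨δ, hC.2 δ ?_ ?_, Set.ext hδ⟩
  · obtain ⟨ξ, hξ, -⟩ := h5 ⟨Classical.arbitrary Om, trivial⟩
    exact ⟨ξ, (hδ ξ).1 hξ⟩
  · intro ξ hξ
    obtain ⟨η, hη, hηC, h6⟩ := h4 ξ ((hδ ξ).2 hξ) (by
      obtain ⟨β, hβ, h7⟩ := hC.1 ξ
      exact ⟨β, hβ, h7⟩)
    exact ⟨η, hηC, h6, (hδ η).1 hη⟩

section ambient

variable {X : Type}

/-- Club many countable `M ⊆ X` have trace on `ω₁` an element of the club `C`. -/
theorem Clb.cmX [Nonempty X] {o : Om → X} (ho : Function.Injective o) {C : Set Om}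
    (hC : Clb C) : CM (fun M : Set X => ∃ δ ∈ C, ∀ ξ, o ξ ∈ M ↔ ξ < δ) := by
  refine (CM.lift ho hC.cm).mono (fun M _ h => ?_)
  obtain ⟨δ, hδ, h2⟩ := h
  refine ⟨δ, hδ, fun ξ => ?_⟩
  have : ξ ∈ o ⁻¹' M ↔ ξ ∈ Set.Iio δ := by rw [h2]
  exact this

/-- If `Φ` holds for club many countable `M ⊆ X`, then club many `δ < ω₁` are traces of such
`M`. -/
theorem CM.clbX {o : Om → X} (ho : Function.Injective o) {Φ : Set X → Prop}
    (h : CM Φ) : ∃ C, Clb C ∧ ∀ δ ∈ C, ∃ M : Set X, M.Countable ∧ Φ M ∧ ∀ ξ, o ξ ∈ M ↔ ξ < δ := by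
  obtain ⟨C, hC, h2⟩ := (CM.proj ho h).clb
  refine ⟨C, hC, fun δ hδ => ?_⟩
  obtain ⟨M, hM, hM', h3⟩ := h2 δ hδ
  refine ⟨M, hM, hM', fun ξ => ?_⟩
  have : ξ ∈ o ⁻¹' M ↔ ξ ∈ Set.Iio δ := by rw [h3]
  exact this

/-- Elements of a ranked type with countable levels: membership in `M` is decided by the rank. -/
theorem CM.rank [Nonempty X] {o : Om → X} (ho : Function.Injective o) {A : Type} {i : A → X}
    (hi : Function.Injective i) (rk : A → Om) (hrk : ∀ δ, {a | rk a = δ}.Countable) :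
    CM (fun M : Set X => ∀ a, i a ∈ M ↔ o (rk a) ∈ M) := by
  have h1 := CM.swallow (X := X) ho (fun δ => i '' {a | rk a = δ}) (fun δ => (hrk δ).image i)
  have h2 := CM.skolem1 (X := X) (k := o) hi (fun a δ => δ = rk a)
  refine (h1.and h2).mono ?_
  rintro M - ⟨h3, h4⟩ a
  constructor
  · intro ha
    obtain ⟨δ, hδ, rfl⟩ := h4 a ha ⟨_, rfl⟩
    exact hδ
  · intro ha
    exact h3 (rk a) ha ⟨a, rfl, rfl⟩

end ambient

theorem Clb.inter {C D : Set Om} (hC : Clb C) (hD : Clb D) : Clb (C ∩ D) := by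
  refine ⟨fun α => ?_, fun δ h1 h2 => ⟨hC.2 δ h1 (fun ξ hξ => ?_), hD.2 δ h1 (fun ξ hξ => ?_)⟩⟩
  · obtain ⟨M, h1, -, ⟨δ, hδ, hM⟩, δ', hδ', hM'⟩ := (hC.cm.and hD.cm).exists_ge {α}
      (Set.countable_singleton α)
    have h2 : δ = δ' := by
      have : Set.Iio δ = Set.Iio δ' := by rw [← hM, ← hM']
      exact Set.Iio_injective this
    refine ⟨δ, ⟨hδ, h2 ▸ hδ'⟩, ?_⟩
    have : α ∈ M := h1 rfl
    rw [hM] at this
    exact this
  · obtain ⟨η, hη, h3, h4⟩ := h2 ξ hξ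
    exact ⟨η, hη.1, h3, h4⟩
  · obtain ⟨η, hη, h3, h4⟩ := h2 ξ hξ
    exact ⟨η, hη.2, h3, h4⟩

theorem Clb.univ : Clb (Set.univ : Set Om) :=
  ⟨fun α => by obtain ⟨β, hβ⟩ := Om_exists_gt α; exact ⟨β, trivial, hβ⟩, fun _ _ _ => trivial⟩

/-- Diagonal intersections of clubs. -/
theorem Clb.diag {C : Om → Set Om} (hC : ∀ ξ, Clb (C ξ)) : Clb {δ | ∀ ξ, ξ < δ → δ ∈ C ξ} := by
  refine ⟨fun α => ?_, fun δ h1 h2 ξ hξ => (hC ξ).2 δ h1 (fun ζ hζ => ?_)⟩
  · have h0 := CM.iio (o := (id : Om → Om)) Function.injective_id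
    obtain ⟨M, h1, -, ⟨δ, hδ⟩, h2⟩ := (h0.and (CM.diag (fun ξ => (hC ξ).cm))).exists_ge {α}
      (Set.countable_singleton α)
    refine ⟨δ, fun ξ hξ => ?_, (hδ α).1 (h1 rfl)⟩
    obtain ⟨δ', hδ', hM'⟩ := h2 ξ ((hδ ξ).2 hξ)
    have : Set.Iio δ = Set.Iio δ' := by rw [← hM']; exact (Set.ext hδ).symm
    rw [Set.Iio_injective this]
    exact hδ'
  · obtain ⟨η, hη, h3, h4⟩ := h2 (max ξ ζ) (max_lt hξ hζ)
    exact ⟨η, hη ξ ((le_max_left _ _).trans_lt h3), (le_max_right _ _).trans_lt h3, h4⟩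

theorem Clb.iInter {ι : Type} [Countable ι] [Nonempty ι] {C : ι → Set Om}
    (hC : ∀ i, Clb (C i)) : Clb (⋂ i, C i) := by
  refine ⟨fun α => ?_, fun δ h1 h2 => Set.mem_iInter.2 (fun i => (hC i).2 δ h1
    (fun ζ hζ => ?_))⟩
  · have h0 := CM.iio (o := (id : Om → Om)) Function.injective_id
    obtain ⟨M, h1, -, ⟨δ, hδ⟩, h2⟩ := (h0.and (CM.all (fun i => (hC i).cm))).exists_ge {α}
      (Set.countable_singleton α)
    refine ⟨δ, Set.mem_iInter.2 (fun i => ?_), (hδ α).1 (h1 rfl)⟩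
    obtain ⟨δ', hδ', hM'⟩ := h2 i
    have : Set.Iio δ = Set.Iio δ' := by rw [← hM']; exact (Set.ext hδ).symm
    rw [Set.Iio_injective this]
    exact hδ'
  · obtain ⟨η, hη, h3, h4⟩ := h2 ζ hζ
    exact ⟨η, Set.mem_iInter.1 hη i, h3, h4⟩

/-- The club of limit ordinals. -/
theorem Clb.lim : Clb {δ | IsLim δ} := by
  have h := CM.skolem1 (X := Om) (i := id) (k := id) Function.injective_id
    (fun ξ η => ξ < η)
  obtain ⟨C, hC, h2⟩ := h.clb
  have h3 : Clb (C ∩ {δ | IsLim δ}) := by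
    refine ⟨fun α => ?_, fun δ h1 h4 => ⟨hC.2 δ h1 (fun ξ hξ => ?_), h1, fun ξ hξ => ?_⟩⟩
    · obtain ⟨β, hβ, h5⟩ := hC.1 α
      refine ⟨β, ⟨hβ, ⟨α, h5⟩, fun ξ hξ => ?_⟩, h5⟩
      obtain ⟨η, hη, h6⟩ := h2 β hβ ξ hξ (Om_exists_gt ξ)
      exact ⟨η, h6, hη⟩
    · obtain ⟨η, hη, h5, h6⟩ := h4 ξ hξ
      exact ⟨η, hη.1, h5, h6⟩
    · obtain ⟨η, hη, h5, h6⟩ := h4 ξ hξ
      exact ⟨η, h5, h6⟩
  refine ⟨fun α => ?_, fun δ h1 h4 => ⟨h1, fun ξ hξ => ?_⟩⟩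
  · obtain ⟨β, hβ, h5⟩ := h3.1 α
    exact ⟨β, hβ.2, h5⟩
  · obtain ⟨η, hη, h5, h6⟩ := h4 ξ hξ
    exact ⟨η, h5, h6⟩

/-- Fodor's lemma. -/
theorem Stat.fodor {S : Set Om} (hS : Stat S) {f : Om → Om} (hf : ∀ δ ∈ S, f δ < δ) :
    ∃ ξ, Stat {δ | δ ∈ S ∧ f δ = ξ} := by
  by_contra hcon
  push Not at hcon
  have h1 : ∀ ξ, ∃ C, Clb C ∧ ∀ δ ∈ C, ¬ (δ ∈ S ∧ f δ = ξ) := by
    intro ξ
    have := hcon ξ
    unfold Stat at this
    push Not at this
    obtain ⟨C, hC, h2⟩ := this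
    exact ⟨C, hC, fun δ hδ h3 => h2 δ h3 hδ⟩
  choose C hC h2 using h1
  obtain ⟨δ, hδ, h3⟩ := hS _ (Clb.diag hC)
  exact h2 (f δ) δ (h3 (f δ) (hf δ hδ)) ⟨hδ, rfl⟩

theorem Stat.mono {S T : Set Om} (hS : Stat S) (h : S ⊆ T) : Stat T := fun C hC => by
  obtain ⟨δ, hδ, h2⟩ := hS C hC
  exact ⟨δ, h hδ, h2⟩

theorem Stat.inter {S C : Set Om} (hS : Stat S) (hC : Clb C) : Stat (S ∩ C) := fun D hD => by
  obtain ⟨δ, hδ, h2⟩ := hS _ (hC.inter hD)
  exact ⟨δ, ⟨hδ, h2.1⟩, h2.2⟩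

/-- A stationary set cut into countably many pieces has a stationary piece. -/
theorem Stat.pigeon {ι : Type} [Countable ι] {S : Set Om} (hS : Stat S) {R : Om → ι → Prop}
    (hR : ∀ δ ∈ S, ∃ a, R δ a) : ∃ a, Stat {δ | δ ∈ S ∧ R δ a} := by
  by_contra hcon
  push Not at hcon
  have hne : Nonempty ι := by
    obtain ⟨δ, hδ, -⟩ := hS _ Clb.univ
    obtain ⟨a, -⟩ := hR δ hδ
    exact ⟨a⟩
  have h1 : ∀ a, ∃ C, Clb C ∧ ∀ δ ∈ C, ¬ (δ ∈ S ∧ R δ a) := by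
    intro ξ
    have := hcon ξ
    unfold Stat at this
    push Not at this
    obtain ⟨C, hC, h2⟩ := this
    exact ⟨C, hC, fun δ hδ h3 => h2 δ h3 hδ⟩
  choose C hC h2 using h1
  obtain ⟨δ, hδ, h3⟩ := hS _ (Clb.iInter hC)
  obtain ⟨a, ha⟩ := hR δ hδ
  exact h2 a δ (Set.mem_iInter.1 h3 a) ⟨hδ, ha⟩

theorem Stat.unbounded {S : Set Om} (hS : Stat S) (α : Om) : ∃ β ∈ S, α < β := by
  have h1 : Clb {δ | α < δ} := by
    refine ⟨fun β => ?_, fun δ h1 h2 => ?_⟩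
    · obtain ⟨γ, hγ⟩ := Om_exists_gt (max α β)
      exact ⟨γ, (le_max_left _ _).trans_lt hγ, (le_max_right _ _).trans_lt hγ⟩
    · obtain ⟨ξ, hξ⟩ := h1
      obtain ⟨η, hη, -, h3⟩ := h2 ξ hξ
      exact lt_trans hη h3
  obtain ⟨δ, hδ, h2⟩ := hS _ h1
  exact ⟨δ, hδ, h2⟩

end Pool.Agent.MOO
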