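import Mathlib
import Pool.Agent.Helper58_MOO.Club

/-!
Binary sequences of countable length, meets, flips.
-/

open Cardinal
open Pool.Agent.Helper69_LOTS

namespace Pool.Agent.MOO

/-- A binary sequence of countable length `ht`, i.e. a node of the full binary tree. Values at and
above the length are set to `false`. -/
@[ext] structure Node where
  ht : Om
  val : Om → Bool
  supp : ∀ ξ, ht ≤ ξ → val ξ = false

namespace Node

/-- Restriction to length `min ξ ht`. -/
noncomputable def res (s : Node) (ξ : Om) : Node where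
  ht := min ξ s.ht
  val := fun η => if η < ξ then s.val η else false
  supp := by
    intro η hη
    by_cases h : η < ξ
    · rw [if_pos h]
      refine s.supp η ?_
      rcases min_le_iff.1 hη with h1 | h1
      · exact absurd h (not_lt.2 h1)
      · exact h1
    · rw [if_neg h]

/-- The node of height `ξ` on the branch `b`. -/
noncomputable def ofBr (b : Om → Bool) (ξ : Om) : Node where
  ht := ξ
  val := fun η => if η < ξ then b η else false
  supp := fun η hη => by rw [if_neg (not_lt.2 hη)]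

/-- End-extension. -/
instance : PartialOrder Node where
  le s t := s.ht ≤ t.ht ∧ ∀ η, η < s.ht → s.val η = t.val η
  le_refl s := ⟨le_rfl, fun _ _ => rfl⟩
  le_trans s t u h1 h2 := ⟨h1.1.trans h2.1, fun η hη =>
    (h1.2 η hη).trans (h2.2 η (hη.trans_le h1.1))⟩
  le_antisymm s t h1 h2 := by
    have h := le_antisymm h1.1 h2.1
    refine Node.ext h (funext fun η => ?_)
    by_cases hη : η < s.ht
    · exact h1.2 η hη
    · rw [s.supp η (not_lt.1 hη), t.supp η (h ▸ not_lt.1 hη)]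

theorem le_def {s t : Node} : s ≤ t ↔ s.ht ≤ t.ht ∧ ∀ η, η < s.ht → s.val η = t.val η := Iff.rfl

variable {s t u w : Node} {ξ η : Om}

@[simp] theorem res_ht (s : Node) (ξ : Om) : (s.res ξ).ht = min ξ s.ht := rfl

theorem res_ht_of_le (h : ξ ≤ s.ht) : (s.res ξ).ht = ξ := min_eq_left h

theorem res_val (s : Node) (ξ η : Om) : (s.res ξ).val η = if η < ξ then s.val η else false := rfl

theorem res_val_of_lt (h : η < ξ) : (s.res ξ).val η = s.val η := by rw [res_val, if_pos h]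

theorem res_le (s : Node) (ξ : Om) : s.res ξ ≤ s :=
  ⟨min_le_right _ _, fun η hη => res_val_of_lt (hη.trans_le (min_le_left _ _))⟩

theorem res_of_le (h : s.ht ≤ ξ) : s.res ξ = s := by
  refine Node.ext (min_eq_right h) (funext fun η => ?_)
  by_cases hη : η < ξ
  · exact res_val_of_lt hη
  · rw [res_val, if_neg hη, s.supp η (h.trans (not_lt.1 hη))]

@[simp] theorem res_self (s : Node) : s.res s.ht = s := res_of_le le_rfl

theorem res_res (s : Node) (ξ η : Om) : (s.res ξ).res η = s.res (min ξ η) := by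
  refine Node.ext ?_ (funext fun ζ => ?_)
  · simp only [res_ht]
    rw [← min_assoc, min_comm η ξ]
  · simp only [res_val, lt_min_iff]
    by_cases h1 : ζ < η <;> by_cases h2 : ζ < ξ <;> simp [h1, h2]

theorem res_res_of_le (s : Node) {ξ η : Om} (h : ξ ≤ η) : (s.res η).res ξ = s.res ξ := by
  rw [res_res, min_eq_right h]

theorem ht_mono (h : s ≤ t) : s.ht ≤ t.ht := h.1

theorem res_eq_of_le (h : s ≤ t) (hξ : ξ ≤ s.ht) : t.res ξ = s.res ξ := by
  refine Node.ext ?_ (funext fun η => ?_)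
  · rw [res_ht, res_ht, min_eq_left hξ, min_eq_left (hξ.trans h.1)]
  · simp only [res_val]
    by_cases hη : η < ξ
    · rw [if_pos hη, if_pos hη, h.2 η (hη.trans_le hξ)]
    · rw [if_neg hη, if_neg hη]

theorem le_iff_res : s ≤ t ↔ t.res s.ht = s := by
  constructor
  · intro h
    rw [res_eq_of_le h le_rfl, res_self]
  · intro h
    rw [← h]
    exact res_le t _

theorem res_mono (h : s ≤ t) (ξ : Om) : s.res ξ ≤ t.res ξ := by
  rcases le_total ξ s.ht with h1 | h1
  · rw [res_eq_of_le h h1]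
  · rw [res_of_le h1]
    refine ⟨le_min h1 h.1, fun η hη => ?_⟩
    rw [res_val_of_lt (hη.trans_le h1)]
    exact h.2 η hη

theorem res_le_res (s : Node) (h : ξ ≤ η) : s.res ξ ≤ s.res η := by
  rw [← res_res_of_le s h]
  exact res_le _ _

theorem eq_of_le_of_ht (h : s ≤ t) (h' : s.ht = t.ht) : s = t := by
  rw [← le_iff_res.1 h, h', res_self]

theorem eq_of_le_of_ht_le (h : s ≤ t) (h' : t.ht ≤ s.ht) : s = t :=
  eq_of_le_of_ht h (le_antisymm h.1 h')

theorem le_res (h : s ≤ t) (hξ : s.ht ≤ ξ) : s ≤ t.res ξ := by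
  rw [← res_of_le hξ]
  exact res_mono h ξ

theorem le_of_le_le (h1 : s ≤ u) (h2 : t ≤ u) (h : s.ht ≤ t.ht) : s ≤ t := by
  rw [le_iff_res, ← res_eq_of_le h2 h, le_iff_res.1 h1]

theorem le_total_of_le (h1 : s ≤ u) (h2 : t ≤ u) : s ≤ t ∨ t ≤ s := by
  rcases le_total s.ht t.ht with h | h
  · exact Or.inl (le_of_le_le h1 h2 h)
  · exact Or.inr (le_of_le_le h2 h1 h)

/-- `w` is the meet of the incomparable nodes `s` and `t`. -/
def Mt (w s t : Node) : Prop :=
  w ≤ s ∧ w ≤ t ∧ w.ht < s.ht ∧ w.ht < t.ht ∧ s.val w.ht ≠ t.val w.ht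

/-- Incomparability. -/
def Inc (s t : Node) : Prop := ¬ s ≤ t ∧ ¬ t ≤ s

/-- `s` and `t` are incomparable and `s` is lexicographically smaller. -/
def Lx (s t : Node) : Prop := ∃ w, Mt w s t ∧ s.val w.ht = false

theorem Mt.symm (h : Mt w s t) : Mt w t s := ⟨h.2.1, h.1, h.2.2.2.1, h.2.2.1, h.2.2.2.2.symm⟩

theorem Inc.symm (h : Inc s t) : Inc t s := ⟨h.2, h.1⟩

theorem Mt.inc (h : Mt w s t) : Inc s t :=
  ⟨fun h1 => h.2.2.2.2 (h1.2 _ h.2.2.1), fun h1 => h.2.2.2.2 (h1.2 _ h.2.2.2.1).symm⟩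

theorem Inc.exists_mt (h : Inc s t) : ∃ w, Mt w s t := by
  have h1 : ∃ η, η < s.ht ∧ η < t.ht ∧ s.val η ≠ t.val η := by
    by_contra hcon
    push Not at hcon
    rcases le_total s.ht t.ht with h2 | h2
    · exact h.1 ⟨h2, fun η hη => hcon η hη (hη.trans_le h2)⟩
    · exact h.2 ⟨h2, fun η hη => (hcon η (hη.trans_le h2) hη).symm⟩
  obtain ⟨η, ⟨h2, h3, h4⟩, hmin⟩ := Om_least h1
  refine ⟨s.res η, res_le _ _, ⟨?_, ?_⟩, ?_, ?_, ?_⟩
  · rw [res_ht_of_le h2.le]
    exact h3.le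
  · intro ζ hζ
    rw [res_ht_of_le h2.le] at hζ
    rw [res_val_of_lt hζ]
    by_contra h5
    exact hmin ζ hζ ⟨hζ.trans h2, hζ.trans h3, h5⟩
  · rw [res_ht_of_le h2.le]
    exact h2
  · rw [res_ht_of_le h2.le]
    exact h3
  · rw [res_ht_of_le h2.le]
    exact h4

theorem inc_iff : Inc s t ↔ ∃ w, Mt w s t := ⟨Inc.exists_mt, fun ⟨_, h⟩ => h.inc⟩

theorem inc_of_ht_eq (h : s.ht = t.ht) (hne : s ≠ t) : Inc s t :=
  ⟨fun h1 => hne (eq_of_le_of_ht h1 h), fun h1 => hne (eq_of_le_of_ht h1 h.symm).symm⟩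

theorem Mt.unique {w' : Node} (h : Mt w s t) (h' : Mt w' s t) : w = w' := by
  have key : ∀ {v v' : Node}, Mt v s t → Mt v' s t → ¬ v.ht < v'.ht := by
    intro v v' h1 h2 h3
    apply h1.2.2.2.2
    rw [← h2.1.2 _ h3, ← h2.2.1.2 _ h3]
  have h1 : w.ht = w'.ht := le_antisymm (not_lt.1 (key h' h)) (not_lt.1 (key h h'))
  exact eq_of_le_of_ht (le_of_le_le h.1 h'.1 h1.le) h1

theorem Mt.mono {s' t' : Node} (h : Mt w s t) (hs : s ≤ s') (ht : t ≤ t') : Mt w s' t' := by
  refine ⟨h.1.trans hs, h.2.1.trans ht, h.2.2.1.trans_le hs.1, h.2.2.2.1.trans_le ht.1, ?_⟩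
  rw [← hs.2 _ h.2.2.1, ← ht.2 _ h.2.2.2.1]
  exact h.2.2.2.2

theorem Mt.of_le {s' t' : Node} (h : Mt w s' t') (hs : s ≤ s') (ht : t ≤ t')
    (h1 : w.ht < s.ht) (h2 : w.ht < t.ht) : Mt w s t := by
  refine ⟨le_of_le_le h.1 hs h1.le, le_of_le_le h.2.1 ht h2.le, h1, h2, ?_⟩
  rw [hs.2 _ h1, ht.2 _ h2]
  exact h.2.2.2.2

theorem Mt.res (h : Mt w s t) (h1 : w.ht < ξ) (h2 : w.ht < η) : Mt w (s.res ξ) (t.res η) :=
  h.of_le (res_le _ _) (res_le _ _) (lt_min h1 h.2.2.1) (lt_min h2 h.2.2.2.1)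

theorem Inc.mono {s' t' : Node} (h : Inc s t) (hs : s ≤ s') (ht : t ≤ t') : Inc s' t' := by
  obtain ⟨w, hw⟩ := h.exists_mt
  exact (hw.mono hs ht).inc

theorem Lx.inc (h : Lx s t) : Inc s t := h.choose_spec.1.inc

theorem Lx.mono {s' t' : Node} (h : Lx s t) (hs : s ≤ s') (ht : t ≤ t') : Lx s' t' := by
  obtain ⟨w, hw, h1⟩ := h
  exact ⟨w, hw.mono hs ht, by rw [← hs.2 _ hw.2.2.1]; exact h1⟩

theorem Lx.of_le {s' t' : Node} (h : Lx s' t') (hs : s ≤ s') (ht : t ≤ t') (h' : Inc s t) :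
    Lx s t := by
  obtain ⟨w, hw⟩ := h'.exists_mt
  obtain ⟨w', hw', h1⟩ := h
  have := (hw.mono hs ht).unique hw'
  subst this
  exact ⟨w, hw, by rw [hs.2 _ hw.2.2.1]; exact h1⟩

theorem Mt.val_true (h : Mt w s t) (h1 : s.val w.ht = false) : t.val w.ht = true := by
  have := h.2.2.2.2
  rw [h1] at this
  cases h2 : t.val w.ht
  · exact absurd h2.symm this
  · rfl

theorem Mt.lx_iff (h : Mt w s t) : Lx s t ↔ s.val w.ht = false := by
  constructor
  · rintro ⟨w', hw', h1⟩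
    rw [h.unique hw']
    exact h1
  · exact fun h1 => ⟨w, h, h1⟩

theorem Inc.lx_or (h : Inc s t) : Lx s t ∨ Lx t s := by
  obtain ⟨w, hw⟩ := h.exists_mt
  cases h1 : s.val w.ht
  · exact Or.inl ⟨w, hw, h1⟩
  · right
    refine ⟨w, hw.symm, ?_⟩
    have := hw.2.2.2.2
    rw [h1] at this
    cases h2 : t.val w.ht
    · rfl
    · exact absurd h2.symm this

theorem Lx.asymm (h : Lx s t) (h' : Lx t s) : False := by
  obtain ⟨w, hw, h1⟩ := h
  obtain ⟨w', hw', h1'⟩ := h'
  rw [hw.symm.unique hw'] at h1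
  have h2 := hw'.2.2.2.2
  rw [h1, h1'] at h2
  exact h2 rfl

theorem Lx.trans (h : Lx s t) (h' : Lx t u) : Lx s u := by
  obtain ⟨w, hw, h1⟩ := h
  obtain ⟨w', hw', h1'⟩ := h'
  rcases lt_trichotomy w.ht w'.ht with h2 | h2 | h2
  · have h3 : w ≤ w' := le_of_le_le hw.2.1 hw'.1 h2.le
    refine ⟨w, ⟨hw.1, h3.trans hw'.2.1, hw.2.2.1, h2.trans hw'.2.2.2.1, ?_⟩, h1⟩
    rw [← hw'.2.1.2 _ h2, hw'.1.2 _ h2]
    exact hw.2.2.2.2
  · have h3 : w = w' := eq_of_le_of_ht (le_of_le_le hw.2.1 hw'.1 h2.le) h2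
    subst h3
    exact absurd (hw.val_true h1) (by rw [h1']; decide)
  · have h3 : w' ≤ w := le_of_le_le hw'.1 hw.2.1 h2.le
    refine ⟨w', ⟨h3.trans hw.1, hw'.2.1, h2.trans hw.2.2.1, hw'.2.2.2.1, ?_⟩, ?_⟩
    · rw [← hw.1.2 _ h2, hw.2.1.2 _ h2]
      exact hw'.2.2.2.2
    · rw [← hw.1.2 _ h2, hw.2.1.2 _ h2]
      exact h1'

/-- Flip the values at the places of the finite set `g`. -/
noncomputable def flip (g : Finset Om) (s : Node) : Node where
  ht := s.ht
  val := fun ξ => if ξ < s.ht then xor (s.val ξ) (decide (ξ ∈ g)) else false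
  supp := fun ξ hξ => by rw [if_neg (not_lt.2 hξ)]

@[simp] theorem flip_ht (g : Finset Om) (s : Node) : (flip g s).ht = s.ht := rfl

theorem flip_val {g : Finset Om} (h : ξ < s.ht) :
    (flip g s).val ξ = xor (s.val ξ) (decide (ξ ∈ g)) := by
  change (if ξ < s.ht then _ else _) = _
  rw [if_pos h]

theorem flip_res (g : Finset Om) (s : Node) (ξ : Om) : flip g (s.res ξ) = (flip g s).res ξ := by
  refine Node.ext rfl (funext fun η => ?_)
  by_cases h : η < ξ
  · by_cases h' : η < s.ht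
    · rw [res_val_of_lt h, flip_val h', flip_val (by rw [res_ht]; exact lt_min h h'),
        res_val_of_lt h]
    · rw [(flip g (s.res ξ)).supp η, ((flip g s).res ξ).supp η]
      · rw [res_ht, flip_ht]; exact (min_le_right _ _).trans (not_lt.1 h')
      · rw [flip_ht, res_ht]; exact (min_le_right _ _).trans (not_lt.1 h')
  · rw [(flip g (s.res ξ)).supp η, ((flip g s).res ξ).supp η]
    · rw [res_ht]; exact (min_le_left _ _).trans (not_lt.1 h)
    · rw [flip_ht, res_ht]; exact (min_le_left _ _).trans (not_lt.1 h)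

theorem flip_flip (g h : Finset Om) (s : Node) : flip g (flip h s) = flip (symmDiff g h) s := by
  refine Node.ext rfl (funext fun η => ?_)
  by_cases h' : η < s.ht
  · rw [flip_val (by exact h'), flip_val h', flip_val h']
    by_cases h1 : η ∈ g <;> by_cases h2 : η ∈ h <;> simp [Finset.mem_symmDiff, h1, h2]
  · rw [(flip g (flip h s)).supp η (not_lt.1 h'), (flip (symmDiff g h) s).supp η (not_lt.1 h')]

@[simp] theorem flip_empty (s : Node) : flip ∅ s = s := by
  refine Node.ext rfl (funext fun η => ?_)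
  by_cases h' : η < s.ht
  · rw [flip_val h']; simp
  · rw [(flip ∅ s).supp η (not_lt.1 h'), s.supp η (not_lt.1 h')]

@[simp] theorem flip_flip_self (g : Finset Om) (s : Node) : flip g (flip g s) = s := by
  rw [flip_flip, symmDiff_self]
  exact flip_empty s

theorem flip_inj {g : Finset Om} (h : flip g s = flip g t) : s = t := by
  rw [← flip_flip_self g s, h, flip_flip_self]

theorem flip_mono {g : Finset Om} (h : s ≤ t) : flip g s ≤ flip g t := by
  rw [le_iff_res] at h ⊢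
  rw [flip_ht, ← flip_res, h]

theorem flip_le_iff {g : Finset Om} : flip g s ≤ flip g t ↔ s ≤ t :=
  ⟨fun h => by have := flip_mono (g := g) h; simpa using this, flip_mono⟩

theorem Mt.flip (h : Mt w s t) (g : Finset Om) : Mt (flip g w) (flip g s) (flip g t) := by
  refine ⟨flip_mono h.1, flip_mono h.2.1, h.2.2.1, h.2.2.2.1, ?_⟩
  rw [flip_ht, flip_val h.2.2.1, flip_val h.2.2.2.1]
  intro h1
  exact h.2.2.2.2 (by simpa using h1)

end Node

open Node

/-- A downward closed set of nodes. -/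
def IsTree (A : Set Node) : Prop := ∀ s ∈ A, ∀ ξ, s.res ξ ∈ A

/-- The set of meets of pairs of incomparable elements of `A`. -/
def mts (A : Set Node) : Set Node := {w | ∃ s ∈ A, ∃ t ∈ A, Mt w s t}

/-- A pruned binary Aronszajn tree. -/
structure AT (S : Set Node) : Prop where
  down : IsTree S
  lev : ∀ δ, {s | s ∈ S ∧ s.ht = δ}.Countable
  ext : ∀ s ∈ S, ∀ δ, s.ht ≤ δ → ∃ t ∈ S, s ≤ t ∧ t.ht = δ
  ne : S.Nonempty
  nobr : ¬ ∃ b : Om → Bool, ∀ δ, ofBr b δ ∈ S

/-- A coherent pruned binary Aronszajn tree closed under finite changes. -/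
structure Coh (T : Set Node) : Prop extends AT T where
  fin : ∀ s ∈ T, ∀ t ∈ T, s.ht = t.ht → {ξ | s.val ξ ≠ t.val ξ}.Finite
  flip : ∀ s ∈ T, ∀ g : Finset Om, flip g s ∈ T

/-- A subtree of `T`: a downward closed subset with nodes on all levels. -/
def Sub (T A : Set Node) : Prop := A ⊆ T ∧ IsTree A ∧ ∀ δ, ∃ s ∈ A, s.ht = δ

/-- No subtree of `A` is `Q`-null: every subtree of `A` has a branching node in `Q`. -/
def NoNull (T Q A : Set Node) : Prop := ∀ B, B ⊆ A → Sub T B → ∃ w ∈ mts B, w ∈ Q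

/-- Every subtree of `A` has a `Q`-null subtree. -/
def DNull (T Q A : Set Node) : Prop :=
  ∀ B, B ⊆ A → Sub T B → ∃ D, D ⊆ B ∧ Sub T D ∧ ∀ w ∈ mts D, w ∉ Q

/-- The nodes all of whose `f`-flips are in `K`. -/
def Kf (K : Set Node) (f : Finset (Finset Om)) : Set Node := {w | ∀ g ∈ f, flip g w ∈ K}

/-- The finite set `f · t`. -/
def orb (f : Finset (Finset Om)) (t : Node) : Set Node := {s | ∃ g ∈ f, s = flip g t}

/-- The flips in `f` are supported below `δ`. -/
def Below (f : Finset (Finset Om)) (δ : Om) : Prop := ∀ g ∈ f, ∀ ξ ∈ g, ξ < δ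

/-- The trace on level `δ` of the part of `X` at and above level `δ`. -/
def tr (X : Set Node) (δ : Om) : Set Node := {s | ∃ x ∈ X, δ ≤ x.ht ∧ s = x.res δ}

end Pool.Agent.MOO
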