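import Mathlib
import Pool.Agent.Helper58_MOO.Node
import Pool.Agent.Helper69_LOTS.Defs

/-!
Definitions of the forcing notions and of the auxiliary notions of the MOO project
(`PFA` implies that the uncountable linear orders have a five element basis).
-/

open Cardinal
open Pool.Agent.Helper69_LOTS

namespace Pool.Agent.MOO

open Node

/-! ### Lists of trees and acceptance -/

/-- `A` is a list of subtrees of `T` deciding, on the club `C`, all the colourings `Kf K f`. -/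
structure ListOK (T K : Set Node) (A : Om → Set Node) (C : Set Om) : Prop where
  clb : Clb C
  lim : ∀ δ ∈ C, IsLim δ
  tree : ∀ η, A η ⊆ T ∧ IsTree (A η)
  dich : ∀ δ ∈ C, ∀ f, Below f δ → ∀ t ∈ T, t.ht = δ →
    ∃ η, η < δ ∧ t ∈ A η ∧ (NoNull T (Kf K f) (A η) ∨ DNull T (Kf K f) (A η))
  tran : ∀ δ ∈ C, ∀ η, η < δ → ∀ g : Finset Om, (∀ ξ ∈ g, ξ < δ) →
    ∃ η', η' < δ ∧ ∀ s, s ∈ A η' ↔ flip g s ∈ A η
  bdd : ∀ δ ∈ C, ∀ l : Finset Om, (∀ η ∈ l, η < δ) →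
    (∃ t ∈ T, t.ht = δ ∧ ∀ η ∈ l, t ∈ A η) → ∀ ε, ∃ t ∈ T, t.ht = ε ∧ ∀ η ∈ l, t ∈ A η

/-- The finite set `E` of nodes of level `δ` is accepted. -/
def Acc (T K : Set Node) (A : Om → Set Node) (δ : Om) (E : Set Node) : Prop :=
  ∃ t ∈ T, t.ht = δ ∧ ∃ f, Below f δ ∧ E = orb f t ∧
    ∃ η, η < δ ∧ t ∈ A η ∧ NoNull T (Kf K f) (A η)

/-- Basic properties of acceptance. -/
structure AccOK (T K : Set Node) (A : Om → Set Node) (C : Set Om) : Prop where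
  base : ∀ δ ∈ C, ∀ f, Below f δ → ∀ t ∈ T, t.ht = δ → Acc T K A δ (orb f t) →
    ∃ η, η < δ ∧ t ∈ A η ∧ NoNull T (Kf K f) (A η)
  dich : ∀ δ ∈ C, ∀ f, Below f δ → ∀ t ∈ T, t.ht = δ → ¬ Acc T K A δ (orb f t) →
    ∃ η, η < δ ∧ t ∈ A η ∧ DNull T (Kf K f) (A η)
  excl : ∀ δ ∈ C, ∀ f, Below f δ → ∀ t ∈ T, t.ht = δ →
    (∃ η, η < δ ∧ t ∈ A η ∧ DNull T (Kf K f) (A η)) → ¬ Acc T K A δ (orb f t)
  mono : ∀ δ ∈ C, ∀ E E' : Set Node, Acc T K A δ E → E' ⊆ E → Acc T K A δ E'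
  empty : ∀ δ ∈ C, Acc T K A δ ∅
  rep : ∀ δ ∈ C, ∀ t ∈ T, t.ht = δ → ∀ E : Set Node, E.Finite → (∀ s ∈ E, s ∈ T ∧ s.ht = δ) →
    ∃ f, Below f δ ∧ E = orb f t

/-! ### Countable models: countable subsets of `Set Om` -/

/-- The trace on `ω₁` of a model `N ⊆ Set Om`, where `ξ` is coded by `{ξ}`. -/
noncomputable def dlt (N : Set (Set Om)) : Om :=
  Classical.epsilon (fun δ : Om => ∀ ξ, ({ξ} : Set Om) ∈ N ↔ ξ < δ)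

theorem dlt_eq {N : Set (Set Om)} {δ : Om} (h : ∀ ξ, ({ξ} : Set Om) ∈ N ↔ ξ < δ) :
    dlt N = δ := by
  have h1 : ∀ ξ, ({ξ} : Set Om) ∈ N ↔ ξ < dlt N :=
    Classical.epsilon_spec (p := fun δ : Om => ∀ ξ, ({ξ} : Set Om) ∈ N ↔ ξ < δ) ⟨δ, h⟩
  apply le_antisymm
  · by_contra h2
    exact lt_irrefl _ ((h δ).1 ((h1 δ).2 (not_le.1 h2)))
  · by_contra h2
    exact lt_irrefl _ ((h1 (dlt N)).1 ((h (dlt N)).2 (not_le.1 h2)))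

/-- `N` comes before `N'` in a chain of models; `c` codes countable subsets of `Set Om`. -/
def Prec (c : Set (Set Om) → Set Om) (N N' : Set (Set Om)) : Prop :=
  N ⊆ N' ∧ c N ∈ N' ∧ dlt N < dlt N'

/-- `c` is a code for countable subsets of `Set Om`. -/
def CodeOK (c : Set (Set Om) → Set Om) : Prop :=
  ∀ N N' : Set (Set Om), N.Countable → N'.Countable → c N = c N' → N = N'

/-- Good models. -/
structure GdM (C₀ : Set Om) (N : Set (Set Om)) : Prop where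
  cnt : N.Countable
  tr : ∀ ξ, ({ξ} : Set Om) ∈ N ↔ ξ < dlt N
  mem : dlt N ∈ C₀
  clubs : ∀ D ∈ N, Clb D → dlt N ∈ D

/-! ### The forcing `DK` adding an uncountable accepted set -/

/-- Conditions: a finite set of nodes and a finite chain of models. -/
structure DK (T K : Set Node) (A : Om → Set Node) (C₀ : Set Om) (c : Set (Set Om) → Set Om) where
  X : Finset Node
  N : Finset (Set (Set Om))
  hX : ∀ x ∈ X, x ∈ T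
  gd : ∀ M ∈ N, GdM C₀ M
  ch : ∀ M ∈ N, ∀ M' ∈ N, M ≠ M' → Prec c M M' ∨ Prec c M' M
  acc : ∀ M ∈ N, Acc T K A (dlt M) (tr (X : Set Node) (dlt M))

instance DK.preorder (T K : Set Node) (A : Om → Set Node) (C₀ : Set Om)
    (c : Set (Set Om) → Set Om) : Preorder (DK T K A C₀ c) where
  le q p := p.X ⊆ q.X ∧ p.N ⊆ q.N
  le_refl p := ⟨Finset.Subset.refl _, Finset.Subset.refl _⟩
  le_trans r q p h1 h2 := ⟨h2.1.trans h1.1, h2.2.trans h1.2⟩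

/-- The parameters of a type: lower part `r₀`, bound `ζ`, node `τ` of height `ζ`, finite set of
flips `e`. -/
structure TyPar {T K : Set Node} {A : Om → Set Node} {C₀ : Set Om} {c : Set (Set Om) → Set Om}
    (r₀ : DK T K A C₀ c) (ζ : Om) (τ : Node) (e : Finset (Finset Om)) : Prop where
  tT : τ ∈ T
  tht : τ.ht = ζ
  be : Below e ζ
  xl : ∀ x ∈ r₀.X, x.ht < ζ
  nl : ∀ M ∈ r₀.N, dlt M ≤ ζ

/-- The condition `r`, with upper models `L 0, ..., L m` and node `t`, is of the given type. -/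
structure Typ {T K : Set Node} {A : Om → Set Node} {C₀ : Set Om} {c : Set (Set Om) → Set Om}
    (r₀ : DK T K A C₀ c) (m : ℕ) (ζ : Om) (τ : Node) (e : Finset (Finset Om))
    (r : DK T K A C₀ c) (L : Fin (m + 1) → Set (Set Om)) (t : Node) : Prop where
  models : ∀ M, M ∈ r.N ↔ M ∈ r₀.N ∨ ∃ j, M = L j
  low : ∀ M ∈ r₀.N, Prec c M (L 0)
  mono : ∀ i j, i < j → Prec c (L i) (L j)
  sub : r₀.X ⊆ r.X
  nodes : ∀ x ∈ r.X, x ∈ r₀.X ∨ dlt (L 0) ≤ x.ht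
  tT : t ∈ T
  tht : t.ht = dlt (L 0)
  tau : τ ≤ t
  zlt : ζ < dlt (L 0)
  orb : tr (r.X : Set Node) (dlt (L 0)) = orb e t

/-! ### The forcing `SD` deciding a family of trees -/

/-- The trees without subtrees in `F`. -/
def Prp (T : Set Node) (F : Set Node → Prop) (A : Set Node) : Prop :=
  A ⊆ T ∧ IsTree A ∧ ∀ B, B ⊆ A → Sub T B → ¬ F B

/-- Conditions: continuous sequences of length `len + 1`. -/
structure SD (T : Set Node) (F : Set Node → Prop) where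
  len : Om
  dl : Om → Om
  N : Om → Set (Set Node)
  dmono : ∀ ξ η, ξ < η → η ≤ len → dl ξ < dl η
  dcont : ∀ ν, ν ≤ len → IsLim ν → ∀ α, α < dl ν → ∃ ξ, ξ < ν ∧ α < dl ξ
  cnt : ∀ ξ, ξ ≤ len → (N ξ).Countable
  fam : ∀ ξ, ξ ≤ len → ∀ B ∈ N ξ, F B ∨ Prp T F B
  nmono : ∀ ξ η, ξ ≤ η → η ≤ len → N ξ ⊆ N η
  ncont : ∀ ν, ν ≤ len → IsLim ν → ∀ B ∈ N ν, ∃ ξ, ξ < ν ∧ B ∈ N ξ
  side : ∀ ν, ν ≤ len → IsLim ν → ∀ t ∈ T, t.ht = dl ν →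
    (∃ ξ₀, ξ₀ < ν ∧ ∀ ξ, ξ₀ < ξ → ξ < ν → ∃ B ∈ N ξ, F B ∧ t.res (dl ξ) ∈ B) ∨
    (∃ ξ₀, ξ₀ < ν ∧ ∀ ξ, ξ₀ < ξ → ξ < ν → ∃ B ∈ N ξ, Prp T F B ∧ t.res (dl ξ) ∈ B)

instance SD.preorder (T : Set Node) (F : Set Node → Prop) : Preorder (SD T F) where
  le q p := p.len ≤ q.len ∧ ∀ ξ, ξ ≤ p.len → q.dl ξ = p.dl ξ ∧ q.N ξ = p.N ξ
  le_refl p := ⟨le_rfl, fun _ _ => ⟨rfl, rfl⟩⟩
  le_trans r q p h1 h2 := ⟨h2.1.trans h1.1, fun ξ hξ =>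
    ⟨(h1.2 ξ (hξ.trans h2.1)).1.trans (h2.2 ξ hξ).1,
      (h1.2 ξ (hξ.trans h2.1)).2.trans (h2.2 ξ hξ).2⟩⟩

/-! ### The forcings `PH` and `PS` adding level preserving maps -/

/-- Finite level preserving partial maps from `T` to `S` whose sign depends only on the meet. -/
structure PH (T S : Set Node) (C : Set Om) where
  lev : Finset Om
  gr : Finset (Node × Node)
  levC : ∀ ξ ∈ lev, ξ ∈ C
  mem : ∀ p ∈ gr, p.1 ∈ T ∧ p.2 ∈ S ∧ p.2.ht = p.1.ht ∧ p.1.ht ∈ lev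
  res : ∀ p ∈ gr, ∀ ξ ∈ lev, ξ ≤ p.1.ht → (p.1.res ξ, p.2.res ξ) ∈ gr
  inj : ∀ p ∈ gr, ∀ q ∈ gr, p.1 = q.1 ↔ p.2 = q.2
  sgn : ∀ p ∈ gr, ∀ q ∈ gr, ∀ p' ∈ gr, ∀ q' ∈ gr, ∀ w, Mt w p.1 q.1 → Mt w p'.1 q'.1 →
    Lx p.1 q.1 → Lx p'.1 q'.1 → Lx p.2 q.2 → Lx p'.2 q'.2

instance PH.preorder (T S : Set Node) (C : Set Om) : Preorder (PH T S C) where
  le q p := p.lev ⊆ q.lev ∧ p.gr ⊆ q.gr
  le_refl p := ⟨Finset.Subset.refl _, Finset.Subset.refl _⟩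
  le_trans r q p h1 h2 := ⟨h2.1.trans h1.1, h2.2.trans h1.2⟩

/-- Finite level preserving, lexicographic order preserving partial maps from `T` to `S`. -/
structure PS (T S : Set Node) (C : Set Om) where
  lev : Finset Om
  gr : Finset (Node × Node)
  levC : ∀ ξ ∈ lev, ξ ∈ C
  mem : ∀ p ∈ gr, p.1 ∈ T ∧ p.2 ∈ S ∧ p.2.ht = p.1.ht ∧ p.1.ht ∈ lev
  res : ∀ p ∈ gr, ∀ ξ ∈ lev, ξ ≤ p.1.ht → (p.1.res ξ, p.2.res ξ) ∈ gr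
  inj : ∀ p ∈ gr, ∀ q ∈ gr, p.1 = q.1 ↔ p.2 = q.2
  sgn : ∀ p ∈ gr, ∀ q ∈ gr, Lx p.1 q.1 → Lx p.2 q.2

instance PS.preorder (T S : Set Node) (C : Set Om) : Preorder (PS T S C) where
  le q p := p.lev ⊆ q.lev ∧ p.gr ⊆ q.gr
  le_refl p := ⟨Finset.Subset.refl _, Finset.Subset.refl _⟩
  le_trans r q p h1 h2 := ⟨h2.1.trans h1.1, h2.2.trans h1.2⟩

/-- `C` is a club of levels at which the extensions in `S` of each node form a dense order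
without endpoints. -/
structure DenseLev (S : Set Node) (C : Set Om) : Prop where
  clb : Clb C
  lim : ∀ δ ∈ C, IsLim δ
  left : ∀ δ ∈ C, ∀ u ∈ S, u.ht < δ → ∀ s ∈ S, s.ht = δ → u ≤ s →
    ∃ t ∈ S, t.ht = δ ∧ u ≤ t ∧ Lx t s
  right : ∀ δ ∈ C, ∀ u ∈ S, u.ht < δ → ∀ s ∈ S, s.ht = δ → u ≤ s →
    ∃ t ∈ S, t.ht = δ ∧ u ≤ t ∧ Lx s t
  mid : ∀ δ ∈ C, ∀ u ∈ S, u.ht < δ → ∀ s ∈ S, ∀ t ∈ S, s.ht = δ → t.ht = δ → u ≤ s → u ≤ t →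
    Lx s t → ∃ v ∈ S, v.ht = δ ∧ u ≤ v ∧ Lx s v ∧ Lx v t

/-- Level preserving maps. -/
structure LevMap (T S : Set Node) (E : Set Om) (φ : Node → Node) : Prop where
  unb : ∀ α, ∃ β ∈ E, α < β
  mem : ∀ s ∈ T, s.ht ∈ E → φ s ∈ S ∧ (φ s).ht = s.ht
  res : ∀ s ∈ T, s.ht ∈ E → ∀ ξ ∈ E, ξ ≤ s.ht → φ (s.res ξ) = (φ s).res ξ

/-! ### The forcing `RE` for sets of reals -/

/-- Soft models; `ln` codes finite sequences of countable ordinals, `c` codes countable sets of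
subsets of `ω₁`. -/
structure Soft (y : Om → ℝ) (ln : List Om → Om) (c : Set (Set Om) → Set Om)
    (N : Set (Set Om)) : Prop where
  cnt : N.Countable
  tr : ∀ ξ, ({ξ} : Set Om) ∈ N ↔ ξ < dlt N
  dec : ∀ N' : Set (Set Om), N'.Countable → c N' ∈ N → N' ⊆ N ∧ dlt N' < dlt N
  e1 : ∀ W ∈ N, ∀ h : List Om, (∀ ξ ∈ h, ξ < dlt N) → ∀ β, dlt N ≤ β → ln (h ++ [β]) ∈ W →
    ∀ a b : ℚ, (a : ℝ) < y β → y β < b →
      (∃ β', (a : ℝ) < y β' ∧ y β' < y β ∧ ln (h ++ [β']) ∈ W) ∧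
      (∃ β', y β < y β' ∧ y β' < b ∧ ln (h ++ [β']) ∈ W)

/-- Hard models. -/
structure Hard (x y : Om → ℝ) (ln : List Om → Om) (c : Set (Set Om) → Set Om)
    (N : Set (Set Om)) : Prop extends Soft y ln c N where
  e2 : ∀ l : List (Set Om), (∀ a ∈ l, a ∈ N) →
    ∃ N', Soft y ln c N' ∧ N' ⊆ N ∧ c N' ∈ N ∧ dlt N' < dlt N ∧ ∀ a ∈ l, a ∈ N'
  e3 : ∀ η, η < dlt N → ∀ a b : ℚ, ¬ {β | (a : ℝ) < y β ∧ y β < b}.Countable →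
    ∃ β, η ≤ β ∧ β < dlt N ∧ (a : ℝ) < y β ∧ y β < b
  o1 : ∀ W ∈ N, ∀ a b : ℚ,
    {m | ∃ h, m = ln h ∧ ∃ ξ, (a : ℝ) < x ξ ∧ x ξ < b ∧ ln (h ++ [ξ]) ∈ W} ∈ N
  o2 : ∀ W ∈ N, ∀ a b a' b' : ℚ,
    {m | ∃ h, m = ln h ∧ (∃ β, (a : ℝ) < y β ∧ y β < b ∧ ln (h ++ [β]) ∈ W) ∧
      (∃ β, (a' : ℝ) < y β ∧ y β < b' ∧ ln (h ++ [β]) ∈ W)} ∈ N
  o3 : ∀ W ∈ N, ∀ h : List Om, (∀ ξ ∈ h, ξ < dlt N) → ∀ a b : ℚ,
    (∃ ξ, (a : ℝ) < x ξ ∧ x ξ < b ∧ ln (h ++ [ξ]) ∈ W) →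
    ∃ ξ, ξ < dlt N ∧ (a : ℝ) < x ξ ∧ x ξ < b ∧ ln (h ++ [ξ]) ∈ W
  o4 : ∀ W ∈ N, ∀ h : List Om, (∀ ξ ∈ h, ξ < dlt N) → ∀ a b : ℚ,
    (∃ β, (a : ℝ) < y β ∧ y β < b ∧ ln (h ++ [β]) ∈ W) →
    ∃ β, β < dlt N ∧ (a : ℝ) < y β ∧ y β < b ∧ ln (h ++ [β]) ∈ W

/-- Conditions: a finite increasing partial map (of indices) and a finite chain of hard and soft
models. -/
structure RE (x y : Om → ℝ) (ln : List Om → Om) (c : Set (Set Om) → Set Om) where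
  f : Finset (Om × Om)
  H : Finset (Set (Set Om))
  S : Finset (Set (Set Om))
  hH : ∀ N ∈ H, Hard x y ln c N
  hS : ∀ N ∈ S, Soft y ln c N
  ch : ∀ N N', (N ∈ H ∨ N ∈ S) → (N' ∈ H ∨ N' ∈ S) → N ≠ N' → Prec c N N' ∨ Prec c N' N
  fn : ∀ p ∈ f, ∀ q ∈ f, p.1 = q.1 → p = q
  inc : ∀ p ∈ f, ∀ q ∈ f, x p.1 < x q.1 → y p.2 < y q.2
  r1 : ∀ p ∈ f, ∀ N ∈ H, (p.1 < dlt N ↔ p.2 < dlt N)
  r2 : ∀ p ∈ f, ∃ N, (N ∈ H ∨ N ∈ S) ∧ p.1 < dlt N ∧ dlt N ≤ p.2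
  r3 : ∀ p ∈ f, ∀ q ∈ f, p ≠ q → ∃ N, (N ∈ H ∨ N ∈ S) ∧
    ((p.2 < dlt N ∧ dlt N ≤ q.2) ∨ (q.2 < dlt N ∧ dlt N ≤ p.2))

instance RE.preorder (x y : Om → ℝ) (ln : List Om → Om) (c : Set (Set Om) → Set Om) :
    Preorder (RE x y ln c) where
  le q p := p.f ⊆ q.f ∧ p.H ⊆ q.H ∧ p.S ⊆ q.S
  le_refl p := ⟨Finset.Subset.refl _, Finset.Subset.refl _, Finset.Subset.refl _⟩
  le_trans r q p h1 h2 := ⟨h2.1.trans h1.1, h2.2.1.trans h1.2.1, h2.2.2.trans h1.2.2⟩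

/-- The first `k` values of `z`. -/
def pre (z : ℕ → Om) (k : ℕ) : List Om := (List.range k).map z

/-- `y` enumerates two-sided condensation points of its range. -/
def TwoSided (y : Om → ℝ) : Prop :=
  ∀ β, ∀ a b : ℚ, (a : ℝ) < y β → y β < b →
    ¬ {β' | (a : ℝ) < y β' ∧ y β' < y β}.Countable ∧ ¬ {β' | y β < y β' ∧ y β' < b}.Countable

/-- An Aronszajn line, enumerated by `ω₁`. -/
def ALine (L : Type) [LinearOrder L] : Prop :=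
  (∃ ℓ : Om → L, Function.Bijective ℓ) ∧ IsEmpty (Om ↪o L) ∧ IsEmpty (Omᵒᵈ ↪o L) ∧
    ∀ Y : Set L, ¬ Y.Countable → ¬ RealType Y

end Pool.Agent.MOO
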