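import Mathlib
import Pool.Agent.Helper58_MOO.Defs

/-!
Statements of the modules of the MOO project. `XxxStmt` is the statement of module `XXX`.
-/

open Cardinal
open Pool.Agent.Helper69_LOTS

namespace Pool.Agent.MOO

open Node

/-! ### Part 1: general forcing -/

/-- CCC: ccc forcings are proper. -/
def CccStmt : Prop :=
  ∀ (P : Type) [Preorder P] [Nonempty P],
    (∀ A : Set P, (∀ p ∈ A, ∀ q ∈ A, p ≠ q → ¬ Comp p q) → A.Countable) → Proper P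

/-- MAH: Martin's axiom for hereditary families of finite sets. -/
def MahStmt : Prop :=
  PFA → ∀ (X : Type) (𝓕 : Set (Finset X)), (∀ A ∈ 𝓕, ∀ B, B ⊆ A → B ∈ 𝓕) →
    (∀ 𝒰 : Set (Finset X), 𝒰 ⊆ 𝓕 → ¬ 𝒰.Countable →
      ∃ A ∈ 𝒰, ∃ B ∈ 𝒰, A ≠ B ∧ ∃ E ∈ 𝓕, A ⊆ E ∧ B ⊆ E) →
    ∀ Z : Set X, ¬ Z.Countable → (∀ x ∈ Z, {x} ∈ 𝓕) →
      ∃ Y, Y ⊆ Z ∧ ¬ Y.Countable ∧ ∀ A : Finset X, (A : Set X) ⊆ Y → A ∈ 𝓕

/-- CRD: codes. -/
def CrdStmt : Prop :=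
  (∃ c : Set (Set Om) → Set Om, CodeOK c) ∧
  (∃ ln : List Om → Om, Function.Injective ln) ∧
  (∃ cN : Node → Set Om, Function.Injective cN) ∧
  (∃ cP : Finset Node × Finset (Set (Set Om)) → Set Om,
    ∀ p q : Finset Node × Finset (Set (Set Om)), (∀ N ∈ p.2, N.Countable) →
      (∀ N ∈ q.2, N.Countable) → cP p = cP q → p = q)

/-! ### Part 2: trees -/

/-- TRE: there is a coherent tree. -/
def TreStmt : Prop := ∃ T : Set Node, Coh T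

/-- PRN: pruning. -/
def PrnStmt : Prop :=
  ∀ T A : Set Node, AT T → Sub T A →
    ∃ B, B ⊆ A ∧ Sub T B ∧ ∀ s ∈ B, ∀ δ, s.ht ≤ δ → ∃ t ∈ B, s ≤ t ∧ t.ht = δ

/-- XST: the nodes with uncountably many elements of `X` above them. -/
def XstStmt : Prop :=
  ∀ T X : Set Node, AT T → X ⊆ T → ¬ X.Countable →
    ∃ S, S ⊆ T ∧ AT S ∧ mts S ⊆ mts X ∧ ∀ s ∈ S, ∃ x ∈ X, s ≤ x

/-- BMR: Baumgartner, Malitz, Reinhardt, in reflection form and for pairs of trees. -/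
def BmrStmt : Prop :=
  ∀ T S : Set Node, AT T → AT S → ∀ 𝒲 : Set (Finset Node × Finset Node),
    (∀ w ∈ 𝒲, (∀ x ∈ w.1, x ∈ T) ∧ (∀ y ∈ w.2, y ∈ S)) →
    ∃ C, Clb C ∧ ∀ δ ∈ C, ∀ w ∈ 𝒲, (∀ x ∈ w.1, δ ≤ x.ht) → (∀ y ∈ w.2, δ ≤ y.ht) →
      ∃ w' ∈ 𝒲, (∀ x ∈ w'.1, x.ht < δ) ∧ (∀ y ∈ w'.2, y.ht < δ) ∧
        (∀ x ∈ w.1, ∀ x' ∈ w'.1, Inc x x') ∧ (∀ y ∈ w.2, ∀ y' ∈ w'.2, Inc y y')

/-- ANT: uncountable antichains. -/
def AntStmt : Prop :=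
  PFA → ∀ T : Set Node, AT T → ∃ Z, Z ⊆ T ∧ ¬ Z.Countable ∧
    ∀ s ∈ Z, ∀ t ∈ Z, s ≠ t → Inc s t

/-- EXL: the extraction lemma. -/
def ExlStmt : Prop :=
  ∀ T : Set Node, Coh T → ∀ (Q : Set Node) (𝒢 : Set (Finset Node)),
    (∀ X ∈ 𝒢, ∀ x ∈ X, x ∈ T) → (∀ X ∈ 𝒢, ∀ w ∈ mts (X : Set Node), w ∉ Q) →
    (∀ X ∈ 𝒢, ∀ Y ∈ 𝒢, X ≠ Y → ∃ w ∈ Q, ∃ x ∈ X, ∃ y ∈ Y, Mt w x y) →
    ∃ (B : Om → Set Node) (C : Set Om), Clb C ∧ ∀ δ ∈ C, ∀ X ∈ 𝒢, (∃ x ∈ X, δ ≤ x.ht) →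
      ∃ σ, σ < δ ∧ ∃ h : Finset (Finset Om), ∃ t ∈ T, h.Nonempty ∧ Below h δ ∧ t.ht = δ ∧
        tr (X : Set Node) δ = orb h t ∧ Sub T (B σ) ∧ (∀ ξ, ξ < δ → t.res ξ ∈ B σ) ∧
        (∀ w ∈ mts (B σ), ∃ g ∈ h, flip g w ∈ Q) ∧
        (∀ s ∈ B σ, ∀ g ∈ h, ∃ X' ∈ 𝒢, ∃ x ∈ X', flip g s ≤ x)

/-- NCL: null-cover lemma. -/
def NclStmt : Prop :=
  PFA → ∀ T : Set Node, Coh T → ∀ Q A : Set Node, Sub T A → NoNull T Q A →
    ∃ (h : Finset (Finset Om)) (B : Set Node), h.Nonempty ∧ Sub T B ∧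
      (∀ g ∈ h, ∀ s ∈ B, flip g s ∈ A) ∧ ∀ w ∈ mts B, ∃ g ∈ h, flip g w ∈ Q

/-! ### Part 3: deciding a family of trees -/

/-- SDC: the core of properness of `SD`. -/
def SdcStmt : Prop :=
  ∀ (T : Set Node) (F : Set Node → Prop), AT T → (∀ A, F A → Sub T A) →
    (∀ A, F A → ∀ B, B ⊆ A → Sub T B → F B) →
    CM (fun M : Set (SD T F ⊕ Set (SD T F)) => ∀ p, Sum.inl p ∈ M →
      ∃ q ≤ p, ∀ D, Dns D → Sum.inr D ∈ M → ∃ d ∈ D, Sum.inl d ∈ M ∧ q ≤ d)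

/-- SDP: properness and density of `SD`. -/
def SdpStmt : Prop :=
  ∀ (T : Set Node) (F : Set Node → Prop), AT T → (∀ A, F A → Sub T A) →
    (∀ A, F A → ∀ B, B ⊆ A → Sub T B → F B) →
    Nonempty (SD T F) ∧ Proper (SD T F) ∧ ∀ γ, Dns {p : SD T F | γ ≤ p.len}

/-- SDF: the list of trees deciding `F`. -/
def SdfStmt : Prop :=
  PFA → ∀ (T : Set Node) (F : Set Node → Prop), AT T → (∀ A, F A → Sub T A) →
    (∀ A, F A → ∀ B, B ⊆ A → Sub T B → F B) →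
    ∃ (A : Om → Set Node) (C : Set Om), Clb C ∧ (∀ η, A η ⊆ T ∧ IsTree (A η) ∧
      ((∀ B, B ⊆ A η → Sub T B → ¬ F B) ∨
        (∀ B, B ⊆ A η → Sub T B → ∃ D, D ⊆ B ∧ Sub T D ∧ F D))) ∧
      ∀ δ ∈ C, ∀ t ∈ T, t.ht = δ → ∃ η, η < δ ∧ t ∈ A η

/-- LST: the list of trees deciding all `Kf K f`. -/
def LstStmt : Prop :=
  PFA → ∀ T : Set Node, Coh T → ∀ K : Set Node,
    ∃ (A : Om → Set Node) (C : Set Om), ListOK T K A C

/-- ACB: basic properties of acceptance. -/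
def AcbStmt : Prop :=
  ∀ (T K : Set Node) (A : Om → Set Node) (C : Set Om), Coh T → ListOK T K A C → AccOK T K A C

/-- LUU: accepted sets can be enlarged. -/
def LuuStmt : Prop :=
  PFA → ∀ (T K : Set Node) (A : Om → Set Node) (C : Set Om), Coh T → ListOK T K A C →
    AccOK T K A C → ∀ (B : Set Node) (e : Finset (Finset Om)), Sub T B →
      (∀ s ∈ B, ∀ δ, s.ht ≤ δ → ∃ t ∈ B, s ≤ t ∧ t.ht = δ) → NoNull T (Kf K e) B →
      ∃ C', Clb C' ∧ C' ⊆ C ∧ (∀ δ ∈ C', Below e δ) ∧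
        ∀ δ ∈ C', ∀ x ∈ B, x.ht < δ → ∀ Y, Acc T K A δ Y →
          ∃ z ∈ B, x ≤ z ∧ z.ht = δ ∧ Acc T K A δ (Y ∪ orb e z)

/-! ### Part 4: the forcing `DK` -/

/-- GDM: club many models are good. -/
def GdmStmt : Prop := ∀ C₀ : Set Om, Clb C₀ → CM (fun N : Set (Set Om) => GdM C₀ N)

/-- KEY: the key lemma. -/
def KeyStmt : Prop :=
  PFA → ∀ (T K : Set Node) (A : Om → Set Node) (C C₀ : Set Om) (c : Set (Set Om) → Set Om)
    (cP : Finset Node × Finset (Set (Set Om)) → Set Om), Coh T → ListOK T K A C →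
    AccOK T K A C → Clb C₀ → C₀ ⊆ C → CodeOK c →
    ∀ (D : Set (DK T K A C₀ c)) (r₀ : DK T K A C₀ c) (m : ℕ) (ζ : Om) (τ : Node)
      (e : Finset (Finset Om)), TyPar r₀ ζ τ e →
      CM (fun N : Set (Set Om) => ∀ r ∈ D, ∀ L t, Typ r₀ m ζ τ e r L t → L 0 = N →
        ∃ r₁ ∈ D, ∃ L₁ t₁, Typ r₀ m ζ τ e r₁ L₁ t₁ ∧ cP (r₁.X, r₁.N) ∈ N ∧
          ∀ j, dlt (L₁ j) < dlt N →
            Acc T K A (dlt (L₁ j)) (tr (r₁.X : Set Node) (dlt (L₁ j)) ∪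
              orb e (t.res (dlt (L₁ j)))))

/-- DKA: amalgamation. -/
def DkaStmt : Prop :=
  ∀ (T K : Set Node) (A : Om → Set Node) (C C₀ : Set Om) (c : Set (Set Om) → Set Om),
    Coh T → ListOK T K A C → AccOK T K A C → C₀ ⊆ C →
    ∀ (r₀ : DK T K A C₀ c) (m : ℕ) (ζ : Om) (τ : Node) (e : Finset (Finset Om)),
      TyPar r₀ ζ τ e → ∀ r L t, Typ r₀ m ζ τ e r L t → ∀ r₁ L₁ t₁, Typ r₀ m ζ τ e r₁ L₁ t₁ →
        (∀ j, Prec c (L₁ j) (L 0)) → (∀ x ∈ r₁.X, x.ht < dlt (L 0)) →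
        (∀ j, Acc T K A (dlt (L₁ j)) (tr (r₁.X : Set Node) (dlt (L₁ j)) ∪
          orb e (t.res (dlt (L₁ j))))) → Comp r₁ r

/-- DKP: properness of `DK`. -/
def DkpStmt : Prop :=
  PFA → ∀ (T K : Set Node) (A : Om → Set Node) (C C₀ : Set Om) (c : Set (Set Om) → Set Om),
    Coh T → ListOK T K A C → AccOK T K A C → Clb C₀ → C₀ ⊆ C → CodeOK c →
    Proper (DK T K A C₀ c)

/-- DKD: density of high nodes and of high models. -/
def DkdStmt : Prop :=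
  ∀ (T K : Set Node) (A : Om → Set Node) (C C₀ : Set Om) (c : Set (Set Om) → Set Om),
    Coh T → ListOK T K A C → AccOK T K A C → Clb C₀ → C₀ ⊆ C → CodeOK c →
    (∀ δ ∈ C₀, ∀ x ∈ T, x.ht < δ → ∀ Y, Acc T K A δ Y →
      ∃ z ∈ T, x ≤ z ∧ z.ht = δ ∧ Acc T K A δ (Y ∪ {z})) →
    (∀ α, Dns {p : DK T K A C₀ c | ∃ x ∈ p.X, α ≤ x.ht}) ∧
    (∀ α, Dns {p : DK T K A C₀ c | ∃ M ∈ p.N, α < dlt M})

/-- DKX: the generic accepted set. -/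
def DkxStmt : Prop :=
  PFA → ∀ (T K : Set Node) (A : Om → Set Node) (C : Set Om), Coh T → ListOK T K A C →
    AccOK T K A C → NoNull T K T →
    ∃ X, X ⊆ T ∧ ¬ X.Countable ∧ ∃ E, Clb E ∧ E ⊆ C ∧
      ∀ δ ∈ E, ∀ F : Finset Node, (F : Set Node) ⊆ X → Acc T K A δ (tr (F : Set Node) δ)

/-- STB: from an accepted set to a homogeneous set. -/
def StbStmt : Prop :=
  PFA → ∀ (T K : Set Node) (A : Om → Set Node) (C : Set Om), Coh T → ListOK T K A C →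
    AccOK T K A C → ∀ X : Set Node, X ⊆ T → ¬ X.Countable → ∀ E, Clb E → E ⊆ C →
      (∀ δ ∈ E, ∀ F : Finset Node, (F : Set Node) ⊆ X → Acc T K A δ (tr (F : Set Node) δ)) →
      ∃ Y, Y ⊆ X ∧ ¬ Y.Countable ∧ ∀ w ∈ mts Y, w ∈ K

/-- MLM: the main lemma. -/
def MlmStmt : Prop :=
  PFA → ∀ T : Set Node, Coh T → ∀ K : Set Node, ∃ X, X ⊆ T ∧ ¬ X.Countable ∧
    ((∀ w ∈ mts X, w ∈ K) ∨ (∀ w ∈ mts X, w ∉ K))

/-! ### Part 5: level preserving maps -/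

/-- CSL: dense levels. -/
def CslStmt : Prop := ∀ S : Set Node, AT S → ∃ C, DenseLev S C

/-- PHP: properness of `PH`. -/
def PhpStmt : Prop :=
  ∀ (T S : Set Node) (C : Set Om), AT T → AT S → Clb C → Proper (PH T S C)

/-- PHD: density in `PH`. -/
def PhdStmt : Prop :=
  ∀ (T S : Set Node) (C : Set Om), AT T → AT S → DenseLev S C → ∀ (p : PH T S C) (x : Node),
    x ∈ T → x.ht ∈ p.lev → ∃ q ≤ p, ∃ y, (x, y) ∈ q.gr

/-- PHI: the generic map of `PH`. -/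
def PhiStmt : Prop :=
  PFA → ∀ T S : Set Node, AT T → AT S → ∃ (E : Set Om) (φ : Node → Node) (K : Set Node),
    LevMap T S E φ ∧ ∀ s ∈ T, ∀ t ∈ T, s.ht ∈ E → t.ht ∈ E → ∀ w, Mt w s t → Lx s t →
      (w ∈ K → Lx (φ s) (φ t)) ∧ (w ∉ K → Lx (φ t) (φ s))

/-- PSP: properness of `PS`. -/
def PspStmt : Prop :=
  ∀ (T S : Set Node) (C : Set Om), Coh T → AT S → S ⊆ T → Clb C → Proper (PS T S C)

/-- PSD: density in `PS`. -/
def PsdStmt : Prop :=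
  ∀ (T S : Set Node) (C : Set Om), AT T → AT S → DenseLev S C → ∀ (p : PS T S C) (x : Node),
    x ∈ T → x.ht ∈ p.lev → ∃ q ≤ p, ∃ y, (x, y) ∈ q.gr

/-- PSI: the generic map of `PS`. -/
def PsiStmt : Prop :=
  PFA → ∀ T S : Set Node, Coh T → AT S → S ⊆ T → ∃ (E : Set Om) (ψ : Node → Node),
    LevMap T S E ψ ∧ ∀ s ∈ T, ∀ t ∈ T, s.ht ∈ E → t.ht ∈ E → Lx s t → Lx (ψ s) (ψ t)

/-! ### Part 6: reals -/

/-- RCM: club many models are soft, hard. -/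
def RcmStmt : Prop :=
  ∀ (x y : Om → ℝ) (ln : List Om → Om) (c : Set (Set Om) → Set Om),
    Function.Injective x → Function.Injective y → Function.Injective ln → CodeOK c →
    CM (fun N : Set (Set Om) => Soft y ln c N) ∧ CM (fun N : Set (Set Om) => Hard x y ln c N)

/-- RCD: reduction to two-sided condensation points. -/
def RcdStmt : Prop :=
  ∀ Y : Set ℝ, ¬ Y.Countable →
    ∃ y : Om → ℝ, Function.Injective y ∧ (∀ α, y α ∈ Y) ∧ TwoSided y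

/-- The pattern of the upper part of a condition. -/
structure Pat (n L : ℕ) (px py : Fin n → ℕ) : Prop where
  lt : ∀ i, px i < py i
  ltL : ∀ i, py i < L
  xinj : Function.Injective px
  yinj : Function.Injective py
  ne : ∀ i j, px i ≠ py j
  cover : ∀ k, k < L → (∃ i, px i = k) ∨ (∃ i, py i = k)

/-- RAM: amalgamation of finite sets of pairs of reals. -/
def RamStmt : Prop :=
  ∀ (x y : Om → ℝ) (ln : List Om → Om) (c : Set (Set Om) → Set Om),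
    Function.Injective x → Function.Injective y → Function.Injective ln →
    ∀ (N : Set (Set Om)), Hard x y ln c N → ∀ (n L : ℕ) (px py : Fin n → ℕ), Pat n L px py →
    ∀ (z : ℕ → Om) (W : Set Om) (Nc : Fin n → Set (Set Om)) (a b a' b' : Fin n → ℚ),
      (∀ k, k < L → dlt N ≤ z k) → W ∈ N → ln (pre z L) ∈ W →
      (∀ i, Soft y ln c (Nc i) ∧ N ⊆ Nc i ∧ (∀ k, k < py i → z k < dlt (Nc i)) ∧
        dlt (Nc i) ≤ z (py i)) →
      (∀ i, (a i : ℝ) < x (z (px i)) ∧ x (z (px i)) < b i ∧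
        (a' i : ℝ) < y (z (py i)) ∧ y (z (py i)) < b' i) →
      ∃ z' : ℕ → Om, (∀ k, k < L → z' k < dlt N) ∧ ln (pre z' L) ∈ W ∧
        ∀ i, ((a i : ℝ) < x (z' (px i)) ∧ x (z' (px i)) < b i ∧
          (a' i : ℝ) < y (z' (py i)) ∧ y (z' (py i)) < b' i) ∧
          (x (z' (px i)) < x (z (px i)) ↔ y (z' (py i)) < y (z (py i)))

/-- RSO: sorting the upper part of a condition. -/
def RsoStmt : Prop :=
  ∀ (x y : Om → ℝ) (ln : List Om → Om) (c : Set (Set Om) → Set Om)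
    (r : RE x y ln c) (N : Set (Set Om)), N ∈ r.H →
    ∃ (n L : ℕ) (px py : Fin n → ℕ) (z : ℕ → Om) (Nc : Fin n → Set (Set Om)),
      Pat n L px py ∧ (∀ k, k < L → dlt N ≤ z k) ∧
      (∀ p : Om × Om, (p ∈ r.f ∧ dlt N ≤ p.1) ↔ ∃ i, p = (z (px i), z (py i))) ∧
      (∀ i, (Nc i ∈ r.H ∨ Nc i ∈ r.S) ∧ (Nc i = N ∨ Prec c N (Nc i)) ∧
        (∀ k, k < py i → z k < dlt (Nc i)) ∧ dlt (Nc i) ≤ z (py i)) ∧
      (∀ i j, i ≠ j → z (px i) ≠ z (px j) ∧ z (py i) ≠ z (py j))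

/-- REA: amalgamation of conditions. -/
def ReaStmt : Prop :=
  ∀ (x y : Om → ℝ) (ln : List Om → Om) (c : Set (Set Om) → Set Om)
    (r r' : RE x y ln c) (N : Set (Set Om)), N ∈ r.H →
    (∀ N₁, (N₁ ∈ r'.H ∨ N₁ ∈ r'.S) → Prec c N₁ N) →
    (∀ N₁ ∈ r.H, N₁ ∈ r'.H ∨ N₁ = N ∨ Prec c N N₁) →
    (∀ N₁ ∈ r.S, N₁ ∈ r'.S ∨ N₁ = N ∨ Prec c N N₁) →
    (∀ p ∈ r'.f, p.1 < dlt N ∧ p.2 < dlt N) →
    (∀ p ∈ r.f, p ∈ r'.f ∨ (dlt N ≤ p.1 ∧ dlt N ≤ p.2)) →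
    (∀ p ∈ r.f, dlt N ≤ p.1 → ∀ q ∈ r'.f,
      (x p.1 < x q.1 → y p.2 < y q.2) ∧ (x q.1 < x p.1 → y q.2 < y p.2)) →
    Comp r' r

/-- REP: properness of `RE`. -/
def RepStmt : Prop :=
  ∀ (x y : Om → ℝ) (ln : List Om → Om) (c : Set (Set Om) → Set Om),
    Function.Injective x → Function.Injective y → Function.Injective ln → CodeOK c →
    Proper (RE x y ln c)

/-- RED: density in `RE`. -/
def RedStmt : Prop :=
  ∀ (x y : Om → ℝ) (ln : List Om → Om) (c : Set (Set Om) → Set Om),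
    Function.Injective x → Function.Injective y → Function.Injective ln → CodeOK c →
    TwoSided y → ∀ α, Dns {p : RE x y ln c | ∃ β, (α, β) ∈ p.f}

/-- REG: the generic embedding. -/
def RegStmt : Prop :=
  PFA → ∀ x y : Om → ℝ, Function.Injective x → Function.Injective y → TwoSided y →
    ∃ f : Om → Om, ∀ α β, x α < x β → y (f α) < y (f β)

/-- REL: Baumgartner's theorem in the form used. -/
def RelStmt : Prop :=
  PFA → ∀ X Y : Set ℝ, #X = ℵ₁ → ¬ Y.Countable → Nonempty (X ↪o Y)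

/-! ### Part 7: Aronszajn lines and assembly -/

/-- ALN: the tree of an Aronszajn line. -/
def AlnStmt : Prop :=
  ∀ (L : Type) [LinearOrder L], ALine L → ∃ (S : Set Node) (ρ : Node → L), AT S ∧
    ∀ s ∈ S, ∀ t ∈ S, Lx s t → ρ s < ρ t

/-- AEM: a two-element basis for the Aronszajn lines. -/
def AemStmt : Prop :=
  PFA → ∃ (A : Type) (_ : LinearOrder A), Uncountable A ∧
    ∀ (L : Type) [LinearOrder L], ALine L → Nonempty (A ↪o L) ∨ Nonempty (Aᵒᵈ ↪o L)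

/-- FIV: the five element basis. -/
def FivStmt : Prop :=
  PFA → ∃ (B : Fin 5 → Type) (_ : ∀ i, LinearOrder (B i)), IsBasisForUncountable B

/-- FIN: the six element basis of the class `C`. -/
def FinStmt : Prop :=
  PFA → ∃ (K : Fin 6 → Type) (_ : ∀ i, LinearOrder (K i)), IsBasisForC K

end Pool.Agent.MOO
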