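import Mathlib
import Pool.Agent.Helper58_MOO.Stmts
import Pool.Agent.Helper18_MOO.Ccc
import Pool.Agent.Helper18_MOO.Mah
import Pool.Agent.Helper15_MOO.Crd
import Pool.Agent.Helper15_MOO.Ant
import Pool.Agent.Helper84_MOO.Bmr
import Pool.Agent.Helper63_MOO.Exl
import Pool.Agent.Helper4_MOO.Ncl
import Pool.Agent.Helper4_MOO.Stb
import Pool.Agent.Helper23_MOO.TRE
import Pool.Agent.Helper23_MOO.RSO
import Pool.Agent.Helper21_MOO.Xst
import Pool.Agent.Helper21_MOO.Psi
import Pool.Agent.Helper39_MOO.Acb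
import Pool.Agent.Helper39_MOO.Lst
import Pool.Agent.Helper12_MOO.Luu
import Pool.Agent.Helper12_MOO.Phd
import Pool.Agent.Helper50_MOO.Sdc
import Pool.Agent.Helper50_MOO.Key
import Pool.Agent.Helper98_MOO.Sdf
import Pool.Agent.Helper98_MOO.Rea
import Pool.Agent.Helper37_MOO.Sdp
import Pool.Agent.Helper37_MOO.Gdm
import Pool.Agent.Helper37_MOO.Reg
import Pool.Agent.Helper25_MOO.Dka
import Pool.Agent.Helper25_MOO.Dkp
import Pool.Agent.Helper20_MOO.Dkd
import Pool.Agent.Helper20_MOO.Rcd
import Pool.Agent.Helper9_MOO.Dkx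
import Pool.Agent.Helper29_MOO.Mlm
import Pool.Agent.Helper29_MOO.Rel
import Pool.Agent.Helper97_MOO.Phi
import Pool.Agent.Helper55_MOO.GenP
import Pool.Agent.Helper75_MOO.Ram
import Pool.Agent.Helper75_MOO.Rep
import Pool.Agent.Helper35_MOO.Rcm
import Pool.Agent.Helper35_MOO.Red
import Pool.Agent.Helper81_MOO.Psd
import Pool.Agent.Helper69_MOO.Aln
import Pool.Agent.Helper69_MOO.Aem
import Pool.Agent.Helper69_MOO.Fiv

/-!
Assembly of the MOO project: `PFA` implies that the uncountable linear orders have a five-element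
basis, hence that the class `C` has a six-element basis.
-/

open Cardinal
open Pool.Agent.Helper69_LOTS

namespace Pool.Agent.MOO

theorem mah : MahStmt := H18.mah H18.ccc
theorem ncl : NclStmt := H4.ncl mah H63.exl
theorem sdf : SdfStmt := H98.sdf (H37.sdp H50.sdc)
theorem lst : LstStmt := H39.lst sdf
theorem luu : LuuStmt := H12.luu ncl
theorem key : KeyStmt := H50.key luu
theorem dkp : DkpStmt := H25.dkp key H25.dka H15.crd H37.gdm
theorem dkx : DkxStmt := H9.dkx luu dkp (H20.dkd H37.gdm) H15.crd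
theorem stb : StbStmt := H4.stb mah H63.exl
theorem mlm : MlmStmt := H29.mlm lst H39.acb dkx stb
theorem phi : PhiStmt := H97.phi H84.csl (H55.php H84.bmr) H12.phd
theorem rep : RepStmt := H75R.rep H35.rcm H23.rso H75.ram H98.rea
theorem reg : RegStmt := H37.reg H15.crd rep (H35.red H35.rcm)
theorem rel : RelStmt := H29.rel H20.rcd reg

theorem psi : PsiStmt := H21.psi H84.csl (H55.psp H84.bmr) H81.psd

theorem aem : AemStmt :=
  H69.aem H23.tre (H15.ant mah H84.bmr) mlm H21.xst phi psi H69.aln

/-- Under `PFA` the uncountable linear orders have a five-element basis. -/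
theorem fiv : FivStmt := H69.fiv aem rel

/-- Under `PFA` the class `C` has a six-element basis. -/
theorem fin : FinStmt := H69.fin fiv

end Pool.Agent.MOO
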